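import Mathlib

/-! # H65E, file Count: the count for all levels (MP_73a90e_al)

`M r t`: the number of the functions for `t` bits and the rank `r + 3`, with one bit added at a time. -/

set_option autoImplicit false

namespace H65E

/-- One bit at a time. -/
theorem count_le {M : ℕ → ℕ → ℕ} {L B : ℕ} (hB : 1 ≤ B) (h3 : ∀ t, t ≤ L → M 0 t ≤ B) (h0 : ∀ r, M (r + 1) 0 ≤ 1)
    (hs : ∀ r t, M (r + 1) (t + 1) ≤ M (r + 1) t + M r t) (r : ℕ) : ∀ t, t ≤ L → M r t ≤ (1 + L) ^ r * B := by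
  induction r with
  | zero =>
    intro t ht
    simpa using h3 t ht
  | succ r ih =>
    have h1 : ∀ t, t ≤ L → M (r + 1) t ≤ 1 + t * ((1 + L) ^ r * B) := by
      intro t
      induction t with
      | zero =>
        intro _
        have := h0 r
        omega
      | succ t iht =>
        intro ht
        have e1 := hs r t
        have e2 := iht (by omega)
        have e3 := ih t (by omega)
        rw [add_mul, one_mul]
        omega
    intro t ht
    have h2 := h1 t ht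
    have h3 : t * ((1 + L) ^ r * B) ≤ L * ((1 + L) ^ r * B) := Nat.mul_le_mul_right _ ht
    have h4 : 1 ≤ (1 + L) ^ r * B := Nat.mul_pos (Nat.pow_pos (by omega)) hB
    calc M (r + 1) t ≤ 1 + L * ((1 + L) ^ r * B) := by omega
      _ ≤ (1 + L) ^ r * B + L * ((1 + L) ^ r * B) := by omega
      _ = (1 + L) ^ (r + 1) * B := by ring

/-- The same for `L = 2 ^ i`. -/
theorem count {M : ℕ → ℕ → ℕ} {i B : ℕ} (hB : 1 ≤ B) (h3 : ∀ t, t ≤ 2 ^ i → M 0 t ≤ B) (h0 : ∀ r, M (r + 1) 0 ≤ 1)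
    (hs : ∀ r t, M (r + 1) (t + 1) ≤ M (r + 1) t + M r t) (r t : ℕ) (ht : t ≤ 2 ^ i) :
    M r t ≤ (2 * 2 ^ i) ^ r * B := by
  refine (count_le hB h3 h0 hs r t ht).trans (Nat.mul_le_mul_right _ (Nat.pow_le_pow_left ?_ r))
  have : 1 ≤ 2 ^ i := Nat.one_le_two_pow
  omega

/-- A version without a function `M`: `P r t m` says that `m` functions are enough. -/
theorem count_pred {P : ℕ → ℕ → ℕ → Prop} {L B : ℕ} (hB : 1 ≤ B) (h3 : ∀ t, t ≤ L → ∃ m, m ≤ B ∧ P 0 t m)
    (h0 : ∀ r, ∃ m, m ≤ 1 ∧ P (r + 1) 0 m)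
    (hs : ∀ r t m m', P (r + 1) t m → P r t m' → P (r + 1) (t + 1) (m + m')) (r : ℕ) :
    ∀ t, t ≤ L → ∃ m, m ≤ (1 + L) ^ r * B ∧ P r t m := by
  induction r with
  | zero =>
    intro t ht
    simpa using h3 t ht
  | succ r ih =>
    have h1 : ∀ t, t ≤ L → ∃ m, m ≤ 1 + t * ((1 + L) ^ r * B) ∧ P (r + 1) t m := by
      intro t
      induction t with
      | zero =>
        intro _
        obtain ⟨m, hm, h⟩ := h0 r
        exact ⟨m, by omega, h⟩
      | succ t iht =>
        intro ht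
        obtain ⟨m, hm, h⟩ := iht (by omega)
        obtain ⟨m', hm', h'⟩ := ih t (by omega)
        refine ⟨m + m', ?_, hs r t m m' h h'⟩
        rw [add_mul, one_mul]
        omega
    intro t ht
    obtain ⟨m, hm, h⟩ := h1 t ht
    refine ⟨m, ?_, h⟩
    have h3 : t * ((1 + L) ^ r * B) ≤ L * ((1 + L) ^ r * B) := Nat.mul_le_mul_right _ ht
    have h4 : 1 ≤ (1 + L) ^ r * B := Nat.mul_pos (Nat.pow_pos (by omega)) hB
    calc m ≤ 1 + L * ((1 + L) ^ r * B) := by omega
      _ ≤ (1 + L) ^ r * B + L * ((1 + L) ^ r * B) := by omega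
      _ = (1 + L) ^ (r + 1) * B := by ring

end H65E
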