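import Pool.Agent.Lib.H99E.ExplicitGen

/-! # H65E, file End: the analytic end for all levels (MP_73a90e_al)

From `d (n) ≤ c (2 L) ^ j L 2 ^ (10 √(log₂ L) + 7)` for `n ≤ 2 ^ L`, `L = 2 ^ i`, to all `n ≥ 2`. -/

set_option autoImplicit false

namespace H65E

open Pool.H87G H38P H99E

/-- The analytic end with the additional factor `(2 L) ^ j`. -/
theorem end_gen (F : Set (POp Bool)) (j c : ℕ)
    (hd : ∀ i n, n ≤ 2 ^ 2 ^ i → d F n ≤ c * ((2 * 2 ^ i) ^ j * (2 ^ i * 2 ^ (10 * Nat.sqrt i + 7)))) (n : ℕ)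
    (hn : 2 ≤ n) :
    (d F n : ℝ) ≤ c * 2 ^ (3 * j + 29) * Real.logb 2 n ^ (j + 1) *
      2 ^ (10 * √(Real.logb 2 (Real.logb 2 n))) := by
  obtain ⟨i, hi⟩ : ∃ i, i = Nat.clog 2 (Nat.clog 2 n) := ⟨_, rfl⟩
  have h1 : n ≤ 2 ^ 2 ^ i := by
    rw [hi]
    calc n ≤ 2 ^ Nat.clog 2 n := Nat.le_pow_clog (by norm_num) n
      _ ≤ 2 ^ 2 ^ Nat.clog 2 (Nat.clog 2 n) :=
        Nat.pow_le_pow_right (by norm_num) (Nat.le_pow_clog (by norm_num) _)
  have h2 : d F n ≤ c * ((2 * 2 ^ i) ^ j * (2 ^ i * 2 ^ (10 * Nat.sqrt i + 7))) := hd i n h1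
  have h3 := two_pow_clog_le n hn
  rw [← hi] at h3
  have hl1 : 1 ≤ Real.logb 2 n := by
    rw [Real.le_logb_iff_rpow_le (by norm_num) (by exact_mod_cast (by omega : 0 < n)), Real.rpow_one]
    exact_mod_cast hn
  obtain ⟨l, hl⟩ : ∃ l, l = Real.logb 2 (n : ℝ) := ⟨_, rfl⟩
  rw [← hl] at h3 hl1 ⊢
  have hLL : 0 ≤ Real.logb 2 l := Real.logb_nonneg (by norm_num) hl1
  have h4 : (i : ℝ) ≤ 2 + Real.logb 2 l := by
    have h5 : Real.logb 2 ((2 : ℝ) ^ i) ≤ Real.logb 2 (4 * l) :=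
      Real.logb_le_logb_of_le (by norm_num) (by positivity) h3
    rw [Real.logb_pow, Real.logb_self_eq_one (by norm_num), mul_one,
      Real.logb_mul (by norm_num) (by linarith)] at h5
    have h6 : Real.logb 2 4 = 2 := by
      rw [show (4 : ℝ) = 2 ^ (2 : ℕ) by norm_num, Real.logb_pow, Real.logb_self_eq_one (by norm_num)]
      norm_num
    linarith
  have h5 : ((Nat.sqrt i : ℕ) : ℝ) ≤ 2 + √(Real.logb 2 l) := by
    have h6 : ((Nat.sqrt i : ℕ) : ℝ) ^ 2 ≤ i := by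
      have := Nat.sqrt_le i
      have h7 : ((Nat.sqrt i * Nat.sqrt i : ℕ) : ℝ) ≤ i := by exact_mod_cast this
      push_cast at h7
      nlinarith
    have h7 : 0 ≤ √(Real.logb 2 l) := Real.sqrt_nonneg _
    have h8 : √(Real.logb 2 l) ^ 2 = Real.logb 2 l := Real.sq_sqrt hLL
    have h9 : ((Nat.sqrt i : ℕ) : ℝ) ^ 2 ≤ (2 + √(Real.logb 2 l)) ^ 2 := by nlinarith
    exact (pow_le_pow_iff_left₀ (Nat.cast_nonneg _) (by linarith) two_ne_zero).1 h9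
  have h6 : (2 : ℝ) ^ (10 * Nat.sqrt i + 7) ≤ 2 ^ 27 * 2 ^ (10 * √(Real.logb 2 l)) := by
    rw [← Real.rpow_natCast, ← Real.rpow_natCast 2 27, ← Real.rpow_add (by norm_num)]
    refine Real.rpow_le_rpow_of_exponent_le (by norm_num) ?_
    push_cast
    linarith
  have h7 : ((2 : ℝ) * 2 ^ i) ^ j ≤ (8 * l) ^ j := pow_le_pow_left₀ (by positivity) (by linarith) j
  calc (d F n : ℝ) ≤ (c : ℝ) * (((2 : ℝ) * 2 ^ i) ^ j * ((2 : ℝ) ^ i * 2 ^ (10 * Nat.sqrt i + 7))) := by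
        exact_mod_cast h2
    _ ≤ c * ((8 * l) ^ j * ((4 * l) * (2 ^ 27 * 2 ^ (10 * √(Real.logb 2 l))))) :=
      mul_le_mul_of_nonneg_left
        (mul_le_mul h7 (mul_le_mul h3 h6 (by positivity) (by linarith)) (by positivity) (by positivity))
        (Nat.cast_nonneg c)
    _ = c * 2 ^ (3 * j + 29) * l ^ (j + 1) * 2 ^ (10 * √(Real.logb 2 l)) := by
      rw [mul_pow, show (8 : ℝ) ^ j = 2 ^ (3 * j) by rw [pow_mul]; norm_num]
      ring

end H65E
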