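import Pool.Agent.Lib.H65E.Three
import Pool.Agent.Lib.H65E.Count
import Pool.Agent.Lib.H65E.End
import Pool.Agent.Lib.H87L.Level

/-! # H65E, file All: the bound on all levels (MP_73a90e_al) -/

set_option autoImplicit false

namespace H65E

open Pool.H87G H87L

/-- size version of `Cross` -/
def CrossN (N c : ℕ) : Prop := ∃ (I : Type) (_ : Fintype I), Fintype.card I = c ∧ Cross (Fin N) I

theorem crossN_two : CrossN 2 1 := by
  obtain ⟨e, he⟩ := inj_of_le (X := Bool) (Y := Fin 2) (by simp)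
  exact ⟨Fin 1, inferInstance, by simp, cross_emb cross_bool e he⟩

theorem crossN_grid {N M c k C : ℕ} (hC : 0 < C) (h : CrossN N c) (hM : M ≤ N ^ C ^ k) :
    CrossN M ((2 * C) ^ k * (k * C ^ 2 + 1) * (k * Nat.clog 2 C + 1) * c) := by
  obtain ⟨I, hI, hc, h⟩ := h
  obtain ⟨e, he⟩ := inj_of_le (X := Fin (k * Nat.clog 2 C) → Bool) (Y := Fin k → Fin C) (by
    simp only [Fintype.card_fun, Fintype.card_fin, Fintype.card_bool]
    rw [mul_comm k, pow_mul]
    exact Nat.pow_le_pow_left (Nat.le_pow_clog (by norm_num) C) k)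
  obtain ⟨e', he'⟩ := inj_of_le (X := (Fin k → Fin C) → Fin N) (Y := Fin M) (by simpa using hM)
  refine ⟨((Fin k → Fin (2 * C)) × Fin (k * C ^ 2 + 1) × Option (Fin (k * Nat.clog 2 C))) × I, inferInstance, ?_,
    cross_emb (cross_grid hC e he h) e' he'⟩
  simp only [Fintype.card_prod, Fintype.card_fun, Fintype.card_fin, Fintype.card_option, hc]
  ring

theorem crossN_cc (i : ℕ) : CrossN (2 ^ 2 ^ i) (H99E.cc i) := by
  refine crossN_grid (by positivity) crossN_two ?_
  refine Nat.pow_le_pow_right (by norm_num) ?_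
  rw [← pow_mul]
  exact Nat.pow_le_pow_right (by norm_num) (Nat.lt_succ_sqrt i).le

/-- the alphabet of the functions on the level `r + 3` -/
def Al : ℕ → Type
  | 0 => ZMod 3 × ZMod 2
  | r + 1 => Al r × Bool

theorem al_card (r : ℕ) : ∃ _ : Fintype (Al r), Fintype.card (Al r) = 6 * 2 ^ r := by
  induction r with
  | zero => exact ⟨inferInstanceAs (Fintype (ZMod 3 × ZMod 2)), by decide⟩
  | succ r ih =>
    obtain ⟨h, hc⟩ := ih
    refine ⟨inferInstanceAs (Fintype (Al r × Bool)), ?_⟩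
    have : Fintype.card (Al r × Bool) = 6 * 2 ^ (r + 1) := by
      rw [Fintype.card_prod, hc, Fintype.card_bool]
      ring
    exact this

theorem al_nonempty (r : ℕ) : Nonempty (Al r) := by
  obtain ⟨_, h⟩ := al_card r
  have : 0 < Fintype.card (Al r) := by
    rw [h]
    positivity
  exact Fintype.card_pos_iff.1 this

/-- `m` functions suffice for `n` letters on the level `r + 3`. -/
def GenN (r n m : ℕ) : Prop := ∃ (I : Type) (_ : Fintype I), Fintype.card I = m ∧ Gen (r + 3) (Al r) (Fin n) I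

theorem genN_le {r n k m : ℕ} (h : GenN r n m) (hk : k ≤ n) : GenN r k m := by
  obtain ⟨I, hI, hc, h⟩ := h
  exact ⟨I, hI, hc, gen_emb h (Fin.castLE hk) (Fin.castLE_injective hk)⟩

theorem genN_sq {n k m c : ℕ} (h : GenN 0 n m) (h' : CrossN n c) (hk : k ≤ n * n) : GenN 0 k (2 * m + c) := by
  obtain ⟨I, hI, hc, h⟩ := h
  obtain ⟨J, hJ, hc', h'⟩ := h'
  obtain ⟨e, he⟩ := inj_of_le (X := Fin n × Fin n) (Y := Fin k) (by simpa using hk)
  refine ⟨(I ⊕ I) ⊕ J, inferInstance, ?_, gen_emb (gen_sq h h') e he⟩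
  simp only [Fintype.card_sum, hc, hc']
  ring

/-- the number of functions on the level 3 -/
def TL : ℕ → ℕ
  | 0 => 1
  | i + 1 => 2 * TL i + H99E.cc i

theorem genN_TL (i : ℕ) : GenN 0 (2 ^ 2 ^ i) (TL i) := by
  induction i with
  | zero =>
    obtain ⟨e, he⟩ := inj_of_le (X := Bool) (Y := Fin (2 ^ 2 ^ 0)) (by simp)
    exact ⟨Fin 1, inferInstance, by simp [TL], gen_emb gen_bool e he⟩
  | succ i ih =>
    exact genN_sq ih (crossN_cc i) (le_of_eq (by rw [← pow_add, pow_succ]; congr 1; ring))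

theorem TL_le (i : ℕ) : TL i ≤ 2 ^ i * 2 ^ (10 * Nat.sqrt i + 7) := by
  have h := H99E.T_gen_le' (A := 1) H99E.cc TL (fun i => by rw [one_mul]; exact H99E.cc_le i) le_rfl
    (fun i => le_rfl) i
  rwa [one_mul] at h

theorem genN_bit {r n m m' : ℕ} (h : GenN (r + 1) n m) (h' : GenN r n m') : GenN (r + 1) (n * 2) (m + m') := by
  obtain ⟨I, hI, hc, h⟩ := h
  obtain ⟨J, hJ, hc', h'⟩ := h'
  obtain ⟨e, he⟩ := inj_of_le (X := Fin n × Bool) (Y := Fin (n * 2)) (by simp)
  have h1 : Gen (r + 3 + 1) (Al r × Bool) (Fin n × Bool) (I ⊕ J) := gen_bit h h'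
  refine ⟨I ⊕ J, inferInstance, ?_, gen_emb h1 e he⟩
  simp only [Fintype.card_sum, hc, hc']

theorem genN_one (r : ℕ) : GenN r 1 1 := by
  have := al_nonempty r
  exact ⟨Fin 1, inferInstance, by simp, gen_one⟩

/-- All functions of `2 ^ i` bits on the level `r + 3`. -/
theorem genN_all (r i : ℕ) : ∃ m, m ≤ (2 * 2 ^ i) ^ r * (2 ^ i * 2 ^ (10 * Nat.sqrt i + 7)) ∧
    GenN r (2 ^ 2 ^ i) m := by
  obtain ⟨m, hm, h⟩ := count_pred (P := fun r t m => GenN r (2 ^ t) m) (L := 2 ^ i)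
    (B := 2 ^ i * 2 ^ (10 * Nat.sqrt i + 7)) (Nat.mul_pos (by positivity) (by positivity))
    (fun t ht => ⟨TL i, TL_le i, genN_le (genN_TL i) (Nat.pow_le_pow_right (by norm_num) ht)⟩)
    (fun r => ⟨1, le_rfl, by simpa using genN_one (r + 1)⟩)
    (fun r t m m' h h' => by
      show GenN (r + 1) (2 ^ (t + 1)) (m + m')
      rw [pow_succ]
      exact genN_bit h h') r (2 ^ i) le_rfl
  refine ⟨m, hm.trans (Nat.mul_le_mul_right _ (Nat.pow_le_pow_left ?_ r)), h⟩
  have : 1 ≤ 2 ^ i := Nat.one_le_two_pow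
  omega

/-- The rule of rank `N` from the condition on the level `N`. -/
theorem rule_lev {F : Set (POp Bool)} {N : ℕ} (hF : Generates F (Lev N)) {Ω : Type} {S : Set (Ω → Bool)}
    (hS : Closed F S) : LRule N S := by
  intro v hv G
  have h1 : Closed F {G : (Fin N → Bool) → Bool | (fun z => G (fun l => v l z)) ∈ S} := by
    intro f hf s hs hd
    exact hS f hf (fun i z => s i (fun l => v l z)) hs (fun z => hd fun l => v l z)
  have h2 := hF _ h1 (fun G hG => hv G hG)
  have h3 : G ∈ {G : (Fin N → Bool) → Bool | (fun z => G (fun l => v l z)) ∈ S} := by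
    rw [h2]
    exact Set.mem_univ _
  exact h3

theorem d_le {F : Set (POp Bool)} {r : ℕ} (hF : Generates F (Lev (r + 3))) {n m : ℕ} (h : GenN r n m) :
    d F n ≤ 2 ^ (6 * 2 ^ r) * m := by
  classical
  obtain ⟨I, hI, hc, g, hg⟩ := h
  obtain ⟨hA, hAc⟩ := al_card r
  obtain ⟨w, hw⟩ : ∃ w : I × (Al r → Bool) → Fin n → Bool, w = fun p z => p.2 (g p.1 z) := ⟨_, rfl⟩
  have h1 : Generates F ((Finset.univ.image w : Finset (Fin n → Bool)) : Set (Fin n → Bool)) := by
    intro S hS hX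
    apply Set.eq_univ_of_forall
    intro f
    have hK := base_sys (N := r + 3) (by omega) (rule_lev hF hS)
    have h2 := hg (Fin n) ⊥ (kn S) hK id bot_le (fun i => by
      intro f' hf'
      have hfac : Function.FactorsThrough f' (g i) := fun x y hxy => hf' hxy
      have e : w (i, Function.extend (g i) f' fun _ => false) = f' := by
        rw [hw]
        funext z
        exact hfac.extend_apply (fun _ => false) z
      rw [← e]
      exact hX (by simp))
    exact h2 f fun x y hxy => congrArg f hxy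
  calc d F n ≤ (Finset.univ.image w).card := Nat.sInf_le ⟨_, rfl, h1⟩
    _ ≤ Fintype.card (I × (Al r → Bool)) := Finset.card_image_le
    _ = 2 ^ (6 * 2 ^ r) * m := by
      rw [Fintype.card_prod, Fintype.card_fun, Fintype.card_bool, hAc, hc, mul_comm]

/-- The bound on all levels. -/
theorem main_all {F : Set (POp Bool)} {N : ℕ} (hN : 3 ≤ N) (hF : Generates F (Lev N)) (n : ℕ) (hn : 2 ≤ n) :
    (d F n : ℝ) ≤ 2 ^ (6 * 2 ^ (N - 3) + 3 * (N - 3) + 29) * Real.logb 2 n ^ (N - 2) *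
      2 ^ (10 * √(Real.logb 2 (Real.logb 2 n))) := by
  obtain ⟨r, rfl⟩ : ∃ r, N = r + 3 := ⟨N - 3, by omega⟩
  have h := end_gen F r (2 ^ (6 * 2 ^ r)) (fun i n hn => by
    obtain ⟨m, hm, hg⟩ := genN_all r i
    exact (d_le hF (genN_le hg hn)).trans (Nat.mul_le_mul_left _ hm)) n hn
  have e1 : r + 3 - 3 = r := by omega
  have e2 : r + 3 - 2 = r + 1 := by omega
  rw [e1, e2]
  refine h.trans (le_of_eq ?_)
  push_cast
  ring

end H65E
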