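import Mathlib

/-!
# H65E: Euler numbers, size and prime factors
-/

set_option autoImplicit false

namespace H65E

open Finset

/-- `eul n` is the Euler number `E_{2n}`: `E_0 = 1` and `∑_{k ≤ n} C(2n, 2k) E_{2k} = 0` for `n ≥ 1`. -/
def eul (n : ℕ) : ℤ :=
  if n = 0 then 1 else -∑ k : Fin n, ((2 * n).choose (2 * (k : ℕ)) : ℤ) * eul k
termination_by n
decreasing_by exact k.2

theorem eul_zero : eul 0 = 1 := by
  rw [eul]
  simp

theorem eul_succ {n : ℕ} (hn : n ≠ 0) :
    eul n = -∑ k ∈ range n, ((2 * n).choose (2 * k) : ℤ) * eul k := by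
  rw [eul, if_neg hn, Finset.sum_range]

theorem eul_sum {n : ℕ} (hn : n ≠ 0) :
    ∑ k ∈ range (n + 1), ((2 * n).choose (2 * k) : ℤ) * eul k = 0 := by
  rw [Finset.sum_range_succ, eul_succ hn]
  simp

theorem sum_choose_even {n : ℕ} (hn : n ≠ 0) :
    2 * ∑ k ∈ range (n + 1), ((2 * n).choose (2 * k) : ℤ) = 2 ^ (2 * n) := by
  have h1 : ∑ i ∈ range (2 * n + 1), ((-1 : ℤ)) ^ i * ((2 * n).choose i : ℤ) = 0 := by
    have := Int.alternating_sum_range_choose_of_ne (n := 2 * n) (by omega)
    exact_mod_cast this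
  have h2 : ∑ i ∈ range (2 * n + 1), ((2 * n).choose i : ℤ) = 2 ^ (2 * n) := by
    exact_mod_cast Nat.sum_range_choose (2 * n)
  have h3 : ∑ i ∈ range (2 * n + 1), ((1 : ℤ) + (-1) ^ i) * ((2 * n).choose i : ℤ) = 2 ^ (2 * n) := by
    rw [← h2, ← add_zero (∑ i ∈ range (2 * n + 1), ((2 * n).choose i : ℤ)), ← h1,
      ← Finset.sum_add_distrib]
    refine Finset.sum_congr rfl fun i _ => by ring
  rw [← h3, Finset.mul_sum]
  have h4 : ∀ m : ℕ, ∑ i ∈ range (2 * m + 1), ((1 : ℤ) + (-1) ^ i) * ((2 * n).choose i : ℤ) =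
      ∑ k ∈ range (m + 1), 2 * ((2 * n).choose (2 * k) : ℤ) := by
    intro m
    induction m with
    | zero => simp
    | succ m ih =>
      rw [show 2 * (m + 1) + 1 = (2 * m + 1) + 1 + 1 by ring, Finset.sum_range_succ,
        Finset.sum_range_succ, ih, Finset.sum_range_succ _ (m + 1)]
      have e1 : ((-1 : ℤ)) ^ (2 * m + 1) = -1 := Odd.neg_one_pow ⟨m, rfl⟩
      have e2 : ((-1 : ℤ)) ^ (2 * m + 1 + 1) = 1 := Even.neg_one_pow ⟨m + 1, by ring⟩
      rw [e1, e2, show 2 * m + 1 + 1 = 2 * (m + 1) by ring]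
      ring
  exact (h4 n).symm

theorem eul_odd (n : ℕ) : Odd (eul n) := by
  induction n using Nat.strong_induction_on with
  | _ n ih =>
    by_cases hn : n = 0
    · rw [hn, eul_zero]; exact odd_one
    · have h1 := sum_choose_even hn
      have h2 : ∑ k ∈ range (n + 1), ((2 * n).choose (2 * k) : ℤ) = 2 ^ (2 * n - 1) := by
        have : (2 : ℤ) ^ (2 * n) = 2 * 2 ^ (2 * n - 1) := by
          rw [← pow_succ', show 2 * n - 1 + 1 = 2 * n by omega]
        rw [this] at h1
        exact mul_left_cancel₀ two_ne_zero h1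
      rw [Finset.sum_range_succ, Nat.choose_self] at h2
      have h3 : ∑ k ∈ range n, ((2 * n).choose (2 * k) : ℤ) * eul k -
          ∑ k ∈ range n, ((2 * n).choose (2 * k) : ℤ) = 
          ∑ k ∈ range n, ((2 * n).choose (2 * k) : ℤ) * (eul k - 1) := by
        rw [← Finset.sum_sub_distrib]
        refine Finset.sum_congr rfl fun k _ => by ring
      have h4 : (2 : ℤ) ∣ ∑ k ∈ range n, ((2 * n).choose (2 * k) : ℤ) * (eul k - 1) := by
        refine Finset.dvd_sum fun k hk => Dvd.dvd.mul_left ?_ _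
        obtain ⟨c, hc⟩ := ih k (Finset.mem_range.1 hk)
        exact ⟨c, by rw [hc]; ring⟩
      have h5 : (2 : ℤ) ∣ 2 ^ (2 * n - 1) := dvd_pow_self _ (by omega)
      have h6 := eul_succ hn
      rw [← h3] at h4
      rw [← h2] at h5
      obtain ⟨a, ha⟩ := h4
      obtain ⟨b, hb⟩ := h5
      refine ⟨-a - b, ?_⟩
      rw [h6]
      push_cast at hb
      linarith

theorem eul_ne_zero (n : ℕ) : eul n ≠ 0 := by
  intro h
  have := eul_odd n
  rw [h] at this
  exact absurd this (by decide)

theorem two_pow_le_fact (j : ℕ) : 2 ^ j ≤ (2 * j).factorial := by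
  induction j with
  | zero => simp
  | succ j ih =>
    rw [show 2 * (j + 1) = 2 * j + 1 + 1 by ring, Nat.factorial_succ, Nat.factorial_succ, pow_succ]
    nlinarith [Nat.factorial_pos (2 * j), Nat.mul_le_mul ih (show 2 ≤ (2 * j + 1 + 1) * (2 * j + 1) by nlinarith)]

theorem eul_abs_le (n : ℕ) : |(eul n : ℝ)| ≤ ((2 * n).factorial : ℝ) := by
  induction n using Nat.strong_induction_on with
  | _ n ih =>
    by_cases hn : n = 0
    · rw [hn, eul_zero]; simp
    · have h1 : (eul n : ℝ) = -∑ k ∈ range n, ((2 * n).choose (2 * k) : ℝ) * (eul k : ℝ) := by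
        have := congrArg (Int.cast : ℤ → ℝ) (eul_succ hn)
        push_cast at this
        exact this
      rw [h1, abs_neg]
      have h2 : ∀ k ∈ range n, |((2 * n).choose (2 * k) : ℝ) * (eul k : ℝ)| ≤
          ((2 * n).factorial : ℝ) * (1 / 2) ^ (n - k) := by
        intro k hk
        have hk' := Finset.mem_range.1 hk
        rw [abs_mul, abs_of_nonneg (Nat.cast_nonneg _)]
        have h3 : ((2 * n).choose (2 * k) : ℝ) * ((2 * k).factorial : ℝ) *
            ((2 * (n - k)).factorial : ℝ) = ((2 * n).factorial : ℝ) := by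
          have := Nat.choose_mul_factorial_mul_factorial (n := 2 * n) (k := 2 * k) (by omega)
          rw [show 2 * n - 2 * k = 2 * (n - k) by omega] at this
          exact_mod_cast this
        have h4 : (2 : ℝ) ^ (n - k) ≤ ((2 * (n - k)).factorial : ℝ) := by
          exact_mod_cast two_pow_le_fact (n - k)
        have h5 := ih k hk'
        have h6 : (0 : ℝ) < 2 ^ (n - k) := by positivity
        have h7 : ((2 * n).choose (2 * k) : ℝ) * |(eul k : ℝ)| * 2 ^ (n - k) ≤
            ((2 * n).factorial : ℝ) := by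
          calc ((2 * n).choose (2 * k) : ℝ) * |(eul k : ℝ)| * 2 ^ (n - k)
              ≤ ((2 * n).choose (2 * k) : ℝ) * ((2 * k).factorial : ℝ) *
                ((2 * (n - k)).factorial : ℝ) := by gcongr
            _ = _ := h3
        rw [one_div, inv_pow, ← div_eq_mul_inv, le_div_iff₀ h6]
        exact h7
      refine (Finset.abs_sum_le_sum_abs _ _).trans ((Finset.sum_le_sum h2).trans ?_)
      rw [← Finset.mul_sum]
      have h8 : ∀ m : ℕ, ∑ k ∈ range m, ((1 : ℝ) / 2) ^ (m - k) = 1 - (1 / 2) ^ m := by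
        intro m
        induction m with
        | zero => simp
        | succ m ihm =>
          rw [Finset.sum_range_succ]
          have h9 : ∑ k ∈ range m, ((1 : ℝ) / 2) ^ (m + 1 - k) =
              (1 / 2) * ∑ k ∈ range m, ((1 : ℝ) / 2) ^ (m - k) := by
            rw [Finset.mul_sum]
            refine Finset.sum_congr rfl fun k hk => ?_
            have := Finset.mem_range.1 hk
            rw [show m + 1 - k = (m - k) + 1 by omega, pow_succ]
            ring
          rw [h9, ihm, show m + 1 - m = 1 by omega, pow_succ]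
          ring
      rw [h8]
      have h10 : (0 : ℝ) < (1 / 2) ^ n := by positivity
      have h11 : (0 : ℝ) < ((2 * n).factorial : ℝ) := by exact_mod_cast Nat.factorial_pos _
      nlinarith

end H65E
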