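import Pool.Agent.Lib.H38P.Base
import Pool.Agent.Lib.H87L.Level

/-! # H65E, file Ex: the partial algebras `A_k` have the level `k + 1` (MP_73a90e_al)

`A_k` is the partial algebra of `UnboundedLogFactor`. -/

set_option autoImplicit false

namespace H65E

open Pool.H87G H87L

/-- the nonempty proper subsets of `{0, …, k}` -/
abbrev Sub (k : ℕ) : Type := {T : Finset (Fin (k + 1)) // T.Nonempty ∧ T ≠ Finset.univ}

/-- The partial product: its arguments are numbered by the nonempty proper subsets `T` of `{0, …, k}`; it is defined
if for some `a 0, …, a k` the argument number `T` is the product of the `a i`, `i ∈ T`, for every `T`; its value is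
the product of all arguments (for `k ≥ 1` this is `a 0 ⋯ a k`). -/
noncomputable def prod (k : ℕ) : POp Bool where
  ar := Fintype.card (Sub k)
  dom := {v | ∃ a : Fin (k + 1) → Bool, ∀ T : Sub k, v (Fintype.equivFin (Sub k) T) = decide (∀ i ∈ T.1, a i = true)}
  fn := fun v => decide (∀ j, v j = true)

/-- the partial algebra `A_k` (its operations; the underlying set is `Bool`) -/
def Alg (k : ℕ) : Set (POp Bool) := {H38P.one, H38P.add, prod k}

/-- The functions of `k + 1` variables which miss a variable generate all functions of `k + 1` variables in `A_k`. -/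
theorem alg_lev (k : ℕ) (hk : 1 ≤ k) : Generates (Alg k) (Lev (k + 1)) := by
  classical
  intro S hS hX
  have hadd : ∀ f g, f ∈ S → g ∈ S → (fun p => xor (f p) (g p)) ∈ S := by
    intro f g hf hg
    exact hS H38P.add (Or.inr (Or.inl rfl)) (![f, g] : Fin 2 → (Fin (k + 1) → Bool) → Bool) (by
      intro (i : Fin 2)
      fin_cases i
      · exact hf
      · exact hg) (fun _ => Set.mem_univ _)
  apply Set.eq_univ_of_forall
  intro G
  refine H38P.of_points (hX ⟨0, fun _ _ _ => rfl⟩) hadd (fun q f hf => ?_) G
  obtain ⟨s, hs⟩ : ∃ s : Fin (prod k).ar → (Fin (k + 1) → Bool) → Bool,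
      s = fun j p => decide (∀ i ∈ ((Fintype.equivFin (Sub k)).symm j).1, decide (p i = q i) = true) := ⟨_, rfl⟩
  have h1 := hS (prod k) (Or.inr (Or.inr rfl)) s (fun j => by
    refine hX ?_
    obtain ⟨i0, hi0⟩ : ∃ i0, i0 ∉ ((Fintype.equivFin (Sub k)).symm j).1 := by
      by_contra hcon
      push Not at hcon
      exact ((Fintype.equivFin (Sub k)).symm j).2.2 (Finset.eq_univ_of_forall hcon)
    refine ⟨i0, fun y z hyz => ?_⟩
    rw [hs]
    show decide (∀ i ∈ ((Fintype.equivFin (Sub k)).symm j).1, decide (y i = q i) = true) =
      decide (∀ i ∈ ((Fintype.equivFin (Sub k)).symm j).1, decide (z i = q i) = true)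
    have : (∀ i ∈ ((Fintype.equivFin (Sub k)).symm j).1, decide (y i = q i) = true) ↔
        (∀ i ∈ ((Fintype.equivFin (Sub k)).symm j).1, decide (z i = q i) = true) := by
      constructor
      · intro h i hi
        rw [← hyz i fun e => hi0 (e ▸ hi)]
        exact h i hi
      · intro h i hi
        rw [hyz i fun e => hi0 (e ▸ hi)]
        exact h i hi
    simp only [this]) (fun p => ⟨fun i => decide (p i = q i), fun T => by
      rw [hs]
      show decide (∀ i ∈ ((Fintype.equivFin (Sub k)).symm (Fintype.equivFin (Sub k) T)).1,
        decide (p i = q i) = true) = _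
      rw [Equiv.symm_apply_apply]⟩)
  have h2 : f = fun p => (prod k).fn fun j => s j p := by
    funext p
    rw [Bool.eq_iff_iff, hf]
    show p = q ↔ decide (∀ j, s j p = true) = true
    rw [decide_eq_true_iff, hs]
    constructor
    · rintro rfl j
      exact decide_eq_true fun i _ => decide_eq_true rfl
    · intro h
      funext i
      have hT : ({i} : Finset (Fin (k + 1))).Nonempty ∧ ({i} : Finset (Fin (k + 1))) ≠ Finset.univ := by
        refine ⟨Finset.singleton_nonempty i, fun e => ?_⟩
        have := congrArg Finset.card e
        rw [Finset.card_singleton, Finset.card_univ, Fintype.card_fin] at this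
        omega
      have h3 := h (Fintype.equivFin (Sub k) ⟨{i}, hT⟩)
      have h4 := of_decide_eq_true h3
      have h5 := h4 i (by
        rw [Equiv.symm_apply_apply]
        exact Finset.mem_singleton_self i)
      exact of_decide_eq_true h5
  rw [h2]
  exact h1

end H65E
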