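import Pool.Agent.Lib.H65E.Main

/-!
# H65E: the statements with sets
-/

set_option autoImplicit false

namespace H65E

open Finset Filter Topology

theorem early_eq (N : ℕ) : {p : ℕ | p ≤ N ∧ p.Prime ∧
    ∃ n : ℕ, 1 ≤ n ∧ (n : ℝ) ^ 2 * Real.log p ^ 2 < p ∧ (p : ℤ) ∣ eul n} = ↑(early N) := by
  ext p
  rw [Finset.mem_coe, mem_early, Set.mem_setOf_eq]
  exact ⟨fun h => ⟨⟨h.2.1.one_lt.le, h.1⟩, h.2⟩, fun h => ⟨h.1.2, h.2⟩⟩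

theorem bad_eq (N : ℕ) : {p : ℕ | p ≤ N ∧ p.Prime ∧
    ∃ m : ℕ, 1 ≤ m ∧ 2 * m ≤ p ∧ (m : ℝ) ^ 2 * Real.log p ^ 3 < p * irr p m} = ↑(bad N) := by
  ext p
  rw [Finset.mem_coe, mem_bad, Set.mem_setOf_eq]
  exact ⟨fun h => ⟨⟨h.2.1.one_lt.le, h.1⟩, h.2⟩, fun h => ⟨h.1.2, h.2⟩⟩

theorem pairs_ncard (m : ℕ) {y : ℝ} (hy : 1 < y) :
    {q : ℕ × ℕ | q.1.Prime ∧ y < q.1 ∧ 1 ≤ q.2 ∧ q.2 ≤ m ∧ (q.1 : ℤ) ∣ eul q.2}.Finite ∧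
    ({q : ℕ × ℕ | q.1.Prime ∧ y < q.1 ∧ 1 ≤ q.2 ∧ q.2 ≤ m ∧ (q.1 : ℤ) ∣ eul q.2}.ncard : ℝ) *
      Real.log y ≤ m * (m + 1) * Real.log (2 * m) := by
  classical
  set X : ℕ := ∑ n ∈ Icc 1 m, (eul n).natAbs with hX
  set P := (Icc 1 X).filter (fun p : ℕ => p.Prime ∧ y < p) with hP
  have hS : {q : ℕ × ℕ | q.1.Prime ∧ y < q.1 ∧ 1 ≤ q.2 ∧ q.2 ≤ m ∧ (q.1 : ℤ) ∣ eul q.2} =
      ↑((P ×ˢ Icc 1 m).filter fun q : ℕ × ℕ => (q.1 : ℤ) ∣ eul q.2) := by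
    ext ⟨p, n⟩
    simp only [Set.mem_setOf_eq, Finset.coe_filter, Finset.mem_product, hP, Finset.mem_filter,
      Finset.mem_Icc]
    constructor
    · rintro ⟨h1, h2, h3, h4, h5⟩
      refine ⟨⟨⟨⟨h1.one_lt.le, ?_⟩, h1, h2⟩, h3, h4⟩, h5⟩
      have h6 : p ≤ (eul n).natAbs :=
        Nat.le_of_dvd (Int.natAbs_pos.2 (eul_ne_zero n)) (Int.natCast_dvd.1 h5)
      refine h6.trans ?_
      rw [hX]
      exact Finset.single_le_sum (f := fun n => (eul n).natAbs) (fun _ _ => Nat.zero_le _)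
        (Finset.mem_Icc.2 ⟨h3, h4⟩)
    · rintro ⟨⟨⟨-, h1, h2⟩, h3, h4⟩, h5⟩
      exact ⟨h1, h2, h3, h4, h5⟩
  rw [hS]
  refine ⟨Finset.finite_toSet _, ?_⟩
  rw [Set.ncard_coe_finset]
  have h1 : (((P ×ˢ Icc 1 m).filter fun q : ℕ × ℕ => (q.1 : ℤ) ∣ eul q.2).card : ℝ) =
      ∑ p ∈ P, (irr p m : ℝ) := by
    have : ((P ×ˢ Icc 1 m).filter fun q : ℕ × ℕ => (q.1 : ℤ) ∣ eul q.2).card =
        ∑ p ∈ P, irr p m := by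
      unfold irr
      simp only [Finset.card_filter]
      exact Finset.sum_product _ _ _
    exact_mod_cast this
  rw [h1]
  exact pairs_le m X hy

end H65E
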