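import Pool.Agent.Lib.H65E.Basic

/-!
# H65E: few primes divide an Euler number of small index
-/

set_option autoImplicit false

namespace H65E

open Finset Filter Topology

/-- The number of `n`, `1 ≤ n ≤ m`, for which `p` divides the Euler number `E_{2n}`. -/
def irr (p m : ℕ) : ℕ := ((Icc 1 m).filter fun n => (p : ℤ) ∣ eul n).card

theorem irr_mono (p : ℕ) {a b : ℕ} (h : a ≤ b) : irr p a ≤ irr p b := by
  refine Finset.card_le_card (Finset.filter_subset_filter _ (Finset.Icc_subset_Icc le_rfl h))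

/-- Distinct primes larger than `y` which divide `N ≠ 0`. -/
theorem card_log_le {N : ℤ} (hN : N ≠ 0) {y : ℝ} (hy : 1 < y) (P : Finset ℕ)
    (hP : ∀ p ∈ P, p.Prime) (hy' : ∀ p ∈ P, y < p) (hd : ∀ p ∈ P, (p : ℤ) ∣ N) :
    (P.card : ℝ) * Real.log y ≤ Real.log |(N : ℝ)| := by
  have h1 : ∏ p ∈ P, p ∣ N.natAbs := by
    refine Finset.prod_primes_dvd _ (fun p hp => (hP p hp).prime) fun p hp => ?_
    exact Int.natCast_dvd.1 (hd p hp)
  have h2 : ∏ p ∈ P, p ≤ N.natAbs := Nat.le_of_dvd (Int.natAbs_pos.2 hN) h1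
  have h3 : y ^ P.card ≤ |(N : ℝ)| := by
    calc y ^ P.card = ∏ _p ∈ P, y := by rw [Finset.prod_const]
      _ ≤ ∏ p ∈ P, (p : ℝ) := Finset.prod_le_prod (fun _ _ => by linarith) fun p hp => (hy' p hp).le
      _ = ((∏ p ∈ P, p : ℕ) : ℝ) := by push_cast; rfl
      _ ≤ (N.natAbs : ℝ) := by exact_mod_cast h2
      _ = |(N : ℝ)| := by rw [Nat.cast_natAbs, Int.cast_abs]
  calc (P.card : ℝ) * Real.log y = Real.log (y ^ P.card) := by rw [Real.log_pow]
    _ ≤ _ := Real.log_le_log (by positivity) h3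

theorem log_fact_le {n m : ℕ} (hnm : n ≤ m) :
    Real.log ((2 * n).factorial : ℝ) ≤ 2 * n * Real.log (2 * m) := by
  have h1 : ((2 * n).factorial : ℝ) ≤ (2 * m : ℝ) ^ (2 * n) := by
    have h2 := Nat.factorial_le_pow (2 * n)
    have h3 : (2 * n) ^ (2 * n) ≤ (2 * m) ^ (2 * n) := Nat.pow_le_pow_left (by omega) _
    exact_mod_cast h2.trans h3
  have h4 : (0 : ℝ) < ((2 * n).factorial : ℝ) := by exact_mod_cast Nat.factorial_pos _
  calc Real.log ((2 * n).factorial : ℝ) ≤ Real.log ((2 * m : ℝ) ^ (2 * n)) := Real.log_le_log h4 h1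
    _ = _ := by rw [Real.log_pow]; push_cast; ring

/-- The number of pairs `(p, n)`, `y < p ≤ x` prime, `1 ≤ n ≤ m`, with `p ∣ E_{2n}`. -/
theorem pairs_le (m x : ℕ) {y : ℝ} (hy : 1 < y) :
    (∑ p ∈ (Icc 1 x).filter (fun p : ℕ => p.Prime ∧ y < p), (irr p m : ℝ)) * Real.log y ≤
      m * (m + 1) * Real.log (2 * m) := by
  set P := (Icc 1 x).filter (fun p : ℕ => p.Prime ∧ y < p) with hPdef
  have hP : ∀ p ∈ P, p.Prime ∧ y < (p : ℝ) := fun p hp => (Finset.mem_filter.1 hp).2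
  have h1 : ∑ p ∈ P, (irr p m : ℝ) =
      ∑ n ∈ Icc 1 m, ((P.filter fun p : ℕ => (p : ℤ) ∣ eul n).card : ℝ) := by
    have : ∑ p ∈ P, irr p m = ∑ n ∈ Icc 1 m, (P.filter fun p : ℕ => (p : ℤ) ∣ eul n).card := by
      unfold irr
      simp only [Finset.card_filter]
      exact Finset.sum_comm
    exact_mod_cast this
  rw [h1, Finset.sum_mul]
  have h2 : ∀ n ∈ Icc 1 m, ((P.filter fun p : ℕ => (p : ℤ) ∣ eul n).card : ℝ) * Real.log y ≤
      2 * n * Real.log (2 * m) := by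
    intro n hn
    obtain ⟨-, hn2⟩ := Finset.mem_Icc.1 hn
    have h3 := card_log_le (eul_ne_zero n) hy (P.filter fun p : ℕ => (p : ℤ) ∣ eul n)
      (fun p hp => (hP p (Finset.mem_filter.1 hp).1).1)
      (fun p hp => (hP p (Finset.mem_filter.1 hp).1).2) (fun p hp => (Finset.mem_filter.1 hp).2)
    have h4 : (0 : ℝ) < |(eul n : ℝ)| := abs_pos.2 (by exact_mod_cast eul_ne_zero n)
    exact h3.trans ((Real.log_le_log h4 (eul_abs_le n)).trans (log_fact_le hn2))
  refine (Finset.sum_le_sum h2).trans (le_of_eq ?_)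
  rw [← Finset.sum_mul, ← Finset.mul_sum]
  congr 1
  have h5 : ∀ k : ℕ, 2 * ∑ n ∈ Icc 1 k, (n : ℝ) = k * (k + 1) := by
    intro k
    induction k with
    | zero => simp
    | succ k ih =>
      rw [Finset.sum_Icc_succ_top (by omega), mul_add, ih]
      push_cast
      ring
  exact h5 m

open Classical in
/-- The bad primes up to `N`. -/
noncomputable def bad (N : ℕ) : Finset ℕ :=
  (Icc 1 N).filter fun p : ℕ => p.Prime ∧
    ∃ m : ℕ, 1 ≤ m ∧ 2 * m ≤ p ∧ (m : ℝ) ^ 2 * Real.log p ^ 3 < p * irr p m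

theorem mem_bad {N p : ℕ} : p ∈ bad N ↔ (1 ≤ p ∧ p ≤ N) ∧ p.Prime ∧
    ∃ m : ℕ, 1 ≤ m ∧ 2 * m ≤ p ∧ (m : ℝ) ^ 2 * Real.log p ^ 3 < p * irr p m := by
  classical
  unfold bad
  rw [Finset.mem_filter, Finset.mem_Icc]

/-- The bad primes at the scale `2 ^ j`. -/
noncomputable def badj (N j : ℕ) : Finset ℕ :=
  (Icc 1 N).filter fun p : ℕ => (p.Prime ∧ √(N : ℝ) < p) ∧
    (4 : ℝ) ^ j * Real.log N ^ 3 < 8 * N * irr p (2 ^ (j + 1))

theorem badj_card {N j : ℕ} (hN : 2 ≤ N) (hj : 2 ^ (j + 1) ≤ N) :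
    ((badj N j).card : ℝ) * Real.log N ^ 3 ≤ 256 * N := by
  have hN' : (2 : ℝ) ≤ N := by exact_mod_cast hN
  have hlog : 0 < Real.log N := Real.log_pos (by linarith)
  have hsq : (1 : ℝ) < √(N : ℝ) := by
    rw [show (1 : ℝ) = √1 by simp]
    exact Real.sqrt_lt_sqrt (by norm_num) (by linarith)
  have h1 := pairs_le (2 ^ (j + 1)) N hsq
  have h2 : Real.log (√(N : ℝ)) = Real.log N / 2 := Real.log_sqrt (by positivity)
  rw [h2] at h1
  set M : ℝ := ((2 ^ (j + 1) : ℕ) : ℝ) with hM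
  have hM1 : (1 : ℝ) ≤ M := by rw [hM]; exact_mod_cast Nat.one_le_two_pow
  have hMN : M ≤ N := by rw [hM]; exact_mod_cast hj
  have hlogM : Real.log (2 * M) ≤ 2 * Real.log N := by
    have : 2 * M ≤ (N : ℝ) ^ 2 := by nlinarith
    calc Real.log (2 * M) ≤ Real.log ((N : ℝ) ^ 2) := Real.log_le_log (by linarith) this
      _ = 2 * Real.log N := by rw [Real.log_pow]; norm_num
  set S : ℝ := ∑ p ∈ (Icc 1 N).filter (fun p : ℕ => p.Prime ∧ √(N : ℝ) < p), (irr p (2 ^ (j + 1)) : ℝ)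
    with hS
  have h3 : S ≤ 4 * (M * (M + 1)) := by
    have h4 : S * (Real.log N / 2) ≤ M * (M + 1) * (2 * Real.log N) := by
      refine h1.trans ?_
      exact mul_le_mul_of_nonneg_left hlogM (by positivity)
    have h5 : S * Real.log N ≤ 4 * (M * (M + 1)) * Real.log N := by linarith
    exact le_of_mul_le_mul_right h5 hlog
  have hM2 : M ^ 2 = 4 * 4 ^ j := by
    rw [hM]
    push_cast
    rw [← pow_mul, show (4 : ℝ) = 2 ^ 2 by norm_num, ← pow_mul, ← pow_add]
    congr 1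
    ring
  have h6 : S ≤ 32 * 4 ^ j := by nlinarith
  have h7 : ((badj N j).card : ℝ) * ((4 : ℝ) ^ j * Real.log N ^ 3) ≤ 8 * N * S := by
    have h8 : ∑ _p ∈ badj N j, ((4 : ℝ) ^ j * Real.log N ^ 3) ≤
        ∑ p ∈ badj N j, 8 * N * (irr p (2 ^ (j + 1)) : ℝ) :=
      Finset.sum_le_sum fun p hp => (Finset.mem_filter.1 hp).2.2.le
    rw [Finset.sum_const, nsmul_eq_mul] at h8
    refine h8.trans ?_
    rw [hS, Finset.mul_sum]
    refine Finset.sum_le_sum_of_subset_of_nonneg ?_ fun p _ _ => by positivity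
    intro p hp
    obtain ⟨a, b, -⟩ := Finset.mem_filter.1 hp
    exact Finset.mem_filter.2 ⟨a, b⟩
  have h9 : (0 : ℝ) < 4 ^ j := by positivity
  have h10 : ((badj N j).card : ℝ) * Real.log N ^ 3 * 4 ^ j ≤ 256 * N * 4 ^ j := by
    have h11 : 8 * (N : ℝ) * S ≤ 8 * N * (32 * 4 ^ j) := by gcongr
    nlinarith
  exact le_of_mul_le_mul_right h10 h9

theorem bad_subset {N : ℕ} (hN : 2 ≤ N) : bad N ⊆ (Icc 1 (Nat.sqrt N)) ∪
    (range (Nat.log 2 N)).biUnion (badj N) := by
  intro p hp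
  obtain ⟨⟨h1, h2⟩, hpr, m, hm1, hm2, hm3⟩ := mem_bad.1 hp
  rw [Finset.mem_union]
  by_cases hs : p ≤ Nat.sqrt N
  · exact Or.inl (Finset.mem_Icc.2 ⟨h1, hs⟩)
  · right
    have hN' : (2 : ℝ) ≤ N := by exact_mod_cast hN
    have hlog : 0 < Real.log N := Real.log_pos (by linarith)
    have hsq : √(N : ℝ) < p := by
      have h3 : N < p * p := Nat.sqrt_lt.1 (by omega)
      rw [Real.sqrt_lt' (by exact_mod_cast h1)]
      have : (N : ℝ) < (p : ℝ) * p := by exact_mod_cast h3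
      nlinarith
    have hsq0 : (0 : ℝ) < √(N : ℝ) := Real.sqrt_pos.2 (by linarith)
    have hlp : Real.log N / 2 ≤ Real.log p := by
      rw [← Real.log_sqrt (by positivity)]
      exact Real.log_le_log hsq0 hsq.le
    set j := Nat.log 2 m with hj
    have hj1 : 2 ^ j ≤ m := Nat.pow_log_le_self 2 (by omega)
    have hj2 : m < 2 ^ (j + 1) := Nat.lt_pow_succ_log_self (by norm_num) m
    have hjN : 2 ^ (j + 1) ≤ N := by
      rw [pow_succ]
      omega
    rw [Finset.mem_biUnion]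
    refine ⟨j, ?_, ?_⟩
    · rw [Finset.mem_range]
      have := (Nat.le_log_iff_pow_le (b := 2) (by norm_num) (by omega)).2 hjN
      omega
    · unfold badj
      refine Finset.mem_filter.2 ⟨Finset.mem_Icc.2 ⟨h1, h2⟩, ⟨hpr, hsq⟩, ?_⟩
      have h4 : (irr p m : ℝ) ≤ irr p (2 ^ (j + 1)) := by
        exact_mod_cast irr_mono p hj2.le
      have h5 : (4 : ℝ) ^ j ≤ (m : ℝ) ^ 2 := by
        have : ((2 : ℝ) ^ j) ^ 2 ≤ (m : ℝ) ^ 2 := by
          have : (2 : ℝ) ^ j ≤ m := by exact_mod_cast hj1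
          gcongr
        calc (4 : ℝ) ^ j = ((2 : ℝ) ^ j) ^ 2 := by
              rw [← pow_mul, mul_comm j 2, pow_mul]; norm_num
          _ ≤ _ := this
      have h6 : (Real.log N / 2) ^ 3 ≤ Real.log p ^ 3 := by gcongr
      have h7 : (4 : ℝ) ^ j * (Real.log N / 2) ^ 3 ≤ (m : ℝ) ^ 2 * Real.log p ^ 3 := by gcongr
      have h8 : (p : ℝ) * irr p m ≤ N * irr p (2 ^ (j + 1)) := by
        have : (p : ℝ) ≤ N := by exact_mod_cast h2
        gcongr
      have h9 : (4 : ℝ) ^ j * (Real.log N / 2) ^ 3 = (4 : ℝ) ^ j * Real.log N ^ 3 / 8 := by ring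
      rw [h9] at h7
      linarith

theorem bad_card {N : ℕ} (hN : 2 ≤ N) :
    ((bad N).card : ℝ) ≤ √(N : ℝ) + 512 * N / Real.log N ^ 2 := by
  have hN' : (2 : ℝ) ≤ N := by exact_mod_cast hN
  have hlog : 0 < Real.log N := Real.log_pos (by linarith)
  have h1 : (bad N).card ≤ Nat.sqrt N + ∑ j ∈ range (Nat.log 2 N), (badj N j).card := by
    refine (Finset.card_le_card (bad_subset hN)).trans ((Finset.card_union_le _ _).trans ?_)
    rw [Nat.card_Icc, Nat.add_sub_cancel]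
    exact Nat.add_le_add_left Finset.card_biUnion_le _
  have h2 : ∀ j ∈ range (Nat.log 2 N), ((badj N j).card : ℝ) ≤ 256 * N / Real.log N ^ 3 := by
    intro j hj
    rw [le_div_iff₀ (by positivity)]
    refine badj_card hN ?_
    have := Finset.mem_range.1 hj
    exact (Nat.le_log_iff_pow_le (b := 2) (by norm_num) (by omega)).1 (by omega)
  have h3 : ((bad N).card : ℝ) ≤ (Nat.sqrt N : ℝ) + ∑ j ∈ range (Nat.log 2 N), ((badj N j).card : ℝ) := by
    exact_mod_cast h1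
  have h4 : (∑ j ∈ range (Nat.log 2 N), ((badj N j).card : ℝ)) ≤
      (Nat.log 2 N : ℝ) * (256 * N / Real.log N ^ 3) := by
    refine (Finset.sum_le_sum h2).trans (le_of_eq ?_)
    rw [Finset.sum_const, Finset.card_range, nsmul_eq_mul]
  have h5 : (Nat.log 2 N : ℝ) ≤ 2 * Real.log N := by
    have h6 : (2 : ℝ) ^ Nat.log 2 N ≤ N := by exact_mod_cast Nat.pow_log_le_self 2 (by omega)
    have h7 : (Nat.log 2 N : ℝ) * Real.log 2 ≤ Real.log N := by
      rw [← Real.log_pow]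
      exact Real.log_le_log (by positivity) h6
    have h8 : (1 : ℝ) / 2 < Real.log 2 := by
      have := Real.log_two_gt_d9
      linarith
    have h9 : (0 : ℝ) ≤ (Nat.log 2 N : ℝ) := Nat.cast_nonneg _
    nlinarith
  have h10 : (Nat.sqrt N : ℝ) ≤ √(N : ℝ) := Real.nat_sqrt_le_real_sqrt
  have h11 : (Nat.log 2 N : ℝ) * (256 * N / Real.log N ^ 3) ≤ 512 * N / Real.log N ^ 2 := by
    calc (Nat.log 2 N : ℝ) * (256 * N / Real.log N ^ 3)
        ≤ 2 * Real.log N * (256 * N / Real.log N ^ 3) := by gcongr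
      _ = 512 * N / Real.log N ^ 2 := by
        field_simp
        ring
  linarith

/-- The primes up to `N` which divide an Euler number `E_{2n}` with `n ^ 2 (log p) ^ 2 < p`. -/
noncomputable def early (N : ℕ) : Finset ℕ := by
  classical
  exact (Icc 1 N).filter fun p : ℕ => p.Prime ∧
    ∃ n : ℕ, 1 ≤ n ∧ (n : ℝ) ^ 2 * Real.log p ^ 2 < p ∧ (p : ℤ) ∣ eul n

theorem mem_early {N p : ℕ} : p ∈ early N ↔ (1 ≤ p ∧ p ≤ N) ∧ p.Prime ∧
    ∃ n : ℕ, 1 ≤ n ∧ (n : ℝ) ^ 2 * Real.log p ^ 2 < p ∧ (p : ℤ) ∣ eul n := by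
  classical
  unfold early
  rw [Finset.mem_filter, Finset.mem_Icc]

theorem early_card {N : ℕ} (hN : 3 ≤ N) :
    ((early N).card : ℝ) ≤ √(N : ℝ) + 512 * N / Real.log N ^ 2 := by
  have hN' : (3 : ℝ) ≤ N := by exact_mod_cast hN
  have hlog : 0 < Real.log N := Real.log_pos (by linarith)
  have hlog1 : 1 ≤ Real.log N := by
    rw [← Real.log_exp 1]
    refine Real.log_le_log (Real.exp_pos 1) ?_
    have := Real.exp_one_lt_d9
    linarith
  have hsq : (1 : ℝ) < √(N : ℝ) := by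
    rw [show (1 : ℝ) = √1 by simp]
    exact Real.sqrt_lt_sqrt (by norm_num) (by linarith)
  have hss : √(N : ℝ) * √(N : ℝ) = N := Real.mul_self_sqrt (by linarith)
  set M : ℕ := ⌊2 * √(N : ℝ) / Real.log N⌋₊ with hM
  have hMle : (M : ℝ) ≤ 2 * √(N : ℝ) / Real.log N := Nat.floor_le (by positivity)
  have hMlog : (M : ℝ) * Real.log N ≤ 2 * √(N : ℝ) := by rwa [le_div_iff₀ hlog] at hMle
  set P := (Icc 1 N).filter (fun p : ℕ => p.Prime ∧ √(N : ℝ) < p) with hP
  have h1 := pairs_le M N hsq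
  have h2 : Real.log (√(N : ℝ)) = Real.log N / 2 := Real.log_sqrt (by positivity)
  rw [h2] at h1
  have hsub : early N ⊆ (Icc 1 (Nat.sqrt N)) ∪ P.filter (fun p => 1 ≤ irr p M) := by
    intro p hp
    obtain ⟨⟨h3, h4⟩, hpr, n, hn1, hn2, hn3⟩ := mem_early.1 hp
    rw [Finset.mem_union]
    by_cases hs : p ≤ Nat.sqrt N
    · exact Or.inl (Finset.mem_Icc.2 ⟨h3, hs⟩)
    · right
      have hsqp : √(N : ℝ) < p := by
        have h5 : N < p * p := Nat.sqrt_lt.1 (by omega)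
        rw [Real.sqrt_lt' (by exact_mod_cast h3)]
        have : (N : ℝ) < (p : ℝ) * p := by exact_mod_cast h5
        nlinarith
      have hlp : Real.log N / 2 ≤ Real.log p := by
        rw [← h2]
        exact Real.log_le_log (by linarith) hsqp.le
      refine Finset.mem_filter.2 ⟨Finset.mem_filter.2 ⟨Finset.mem_Icc.2 ⟨h3, h4⟩, hpr, hsqp⟩, ?_⟩
      have hnM : n ≤ M := by
        rw [hM]
        refine Nat.le_floor ?_
        rw [le_div_iff₀ hlog]
        have h6 : ((n : ℝ) * (Real.log N / 2)) ^ 2 ≤ (√(N : ℝ)) ^ 2 := by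
          calc ((n : ℝ) * (Real.log N / 2)) ^ 2 ≤ ((n : ℝ) * Real.log p) ^ 2 := by gcongr
            _ = (n : ℝ) ^ 2 * Real.log p ^ 2 := by ring
            _ ≤ p := hn2.le
            _ ≤ N := by exact_mod_cast h4
            _ = (√(N : ℝ)) ^ 2 := by rw [sq, hss]
        have h7 := abs_le_of_sq_le_sq' h6 (by linarith)
        linarith [h7.2]
      refine Finset.card_pos.2 ⟨n, Finset.mem_filter.2 ⟨Finset.mem_Icc.2 ⟨hn1, hnM⟩, hn3⟩⟩
  have h3 : ((P.filter (fun p => 1 ≤ irr p M)).card : ℝ) ≤ ∑ p ∈ P, (irr p M : ℝ) := by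
    rw [Finset.card_eq_sum_ones, Nat.cast_sum]
    calc ∑ p ∈ P.filter (fun p => 1 ≤ irr p M), ((1 : ℕ) : ℝ)
        ≤ ∑ p ∈ P.filter (fun p => 1 ≤ irr p M), (irr p M : ℝ) :=
          Finset.sum_le_sum fun p hp => by exact_mod_cast (Finset.mem_filter.1 hp).2
      _ ≤ ∑ p ∈ P, (irr p M : ℝ) :=
          Finset.sum_le_sum_of_subset_of_nonneg (Finset.filter_subset _ _) fun _ _ _ => by positivity
  have h4 : ((early N).card : ℝ) ≤ (Nat.sqrt N : ℝ) + ((P.filter (fun p => 1 ≤ irr p M)).card : ℝ) := by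
    have := (Finset.card_le_card hsub).trans (Finset.card_union_le _ _)
    rw [Nat.card_Icc, Nat.add_sub_cancel] at this
    exact_mod_cast this
  have h10 : (Nat.sqrt N : ℝ) ≤ √(N : ℝ) := Real.nat_sqrt_le_real_sqrt
  have h11 : (∑ p ∈ P, (irr p M : ℝ)) ≤ 512 * N / Real.log N ^ 2 := by
    rw [le_div_iff₀ (by positivity)]
    rcases Nat.eq_zero_or_pos M with h0 | hpos
    · have : ∑ p ∈ P, (irr p M : ℝ) = 0 := by
        refine Finset.sum_eq_zero fun p _ => ?_
        rw [h0]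
        simp [irr]
      rw [this, zero_mul]
      positivity
    · have hM1 : (1 : ℝ) ≤ M := by exact_mod_cast hpos
      have hlogM : Real.log (2 * M) ≤ 2 * Real.log N := by
        have h5 : (M : ℝ) ≤ 2 * √(N : ℝ) := by nlinarith
        have h6 : 2 * (M : ℝ) ≤ (N : ℝ) ^ 2 := by
          have h7 : √(N : ℝ) ≤ N := by nlinarith
          nlinarith [hss]
        calc Real.log (2 * M) ≤ Real.log ((N : ℝ) ^ 2) := Real.log_le_log (by linarith) h6
          _ = 2 * Real.log N := by rw [Real.log_pow]; norm_num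
      have h5 : (∑ p ∈ P, (irr p M : ℝ)) * (Real.log N / 2) ≤ M * (M + 1) * (2 * Real.log N) :=
        h1.trans (mul_le_mul_of_nonneg_left hlogM (by positivity))
      have h6 : (∑ p ∈ P, (irr p M : ℝ)) ≤ 4 * (M * (M + 1)) := by
        have : (∑ p ∈ P, (irr p M : ℝ)) * Real.log N ≤ 4 * (M * (M + 1)) * Real.log N := by linarith
        exact le_of_mul_le_mul_right this hlog
      have h7 : (∑ p ∈ P, (irr p M : ℝ)) ≤ 8 * (M : ℝ) ^ 2 := by nlinarith
      calc (∑ p ∈ P, (irr p M : ℝ)) * Real.log N ^ 2 ≤ 8 * (M : ℝ) ^ 2 * Real.log N ^ 2 := by gcongr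
        _ = 8 * ((M : ℝ) * Real.log N) ^ 2 := by ring
        _ ≤ 8 * (2 * √(N : ℝ)) ^ 2 := by gcongr
        _ = 32 * N := by rw [mul_pow, sq (√(N : ℝ)), hss]; ring
        _ ≤ 512 * N := by linarith
  linarith

/-- A set of primes with at most `√N + 512 N / (log N)^2` elements up to `N` has relative density zero. -/
theorem tendsto_of_card {f : ℕ → ℕ}
    (hf : ∀ N : ℕ, 3 ≤ N → (f N : ℝ) ≤ √(N : ℝ) + 512 * N / Real.log N ^ 2) :
    Tendsto (fun N : ℕ => (f N : ℝ) / Nat.primeCounting N) atTop (𝓝 0) := by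
  -- lower bound for the prime counting function
  have hpi : ∀ᶠ N : ℕ in atTop, (N : ℝ) / (4 * Real.log N) ≤ (Nat.primeCounting N : ℝ) := by
    have h1 : Tendsto (fun N : ℕ => Real.log ((N : ℝ) + 1) / ((N : ℝ) + 1)) atTop (𝓝 0) := by
      have h2 : Tendsto (fun x : ℝ => Real.log x / x) atTop (𝓝 0) := by
        have := Real.isLittleO_log_id_atTop.tendsto_div_nhds_zero
        exact this
      exact h2.comp (tendsto_atTop_add_const_right _ _ tendsto_natCast_atTop_atTop)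
    have h3 := h1.eventually (gt_mem_nhds (show (0 : ℝ) < 1 / 8 by norm_num))
    filter_upwards [h3, eventually_ge_atTop 3] with N hN hN3
    have hN' : (3 : ℝ) ≤ N := by exact_mod_cast hN3
    have hlog : 0 < Real.log N := Real.log_pos (by linarith)
    refine le_trans ?_ (Chebyshev.pi_ge N)
    rw [div_le_div_iff₀ (by positivity) hlog]
    have h4 : Real.log ((N : ℝ) + 1) < 1 / 8 * ((N : ℝ) + 1) := by
      rwa [div_lt_iff₀ (by positivity)] at hN
    have h5 := Real.log_two_gt_d9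
    have h6 : (N : ℝ) ≤ 4 * (N * Real.log 2 - Real.log (N + 1)) := by nlinarith
    calc (N : ℝ) * Real.log N ≤ 4 * (N * Real.log 2 - Real.log (N + 1)) * Real.log N := by gcongr
      _ = _ := by ring
  have hlim : Tendsto (fun N : ℕ => 4 * (Real.log N / √(N : ℝ)) + 2048 / Real.log N) atTop (𝓝 0) := by
    have h1 : Tendsto (fun x : ℝ => Real.log x / √x) atTop (𝓝 0) := by
      have := (isLittleO_log_rpow_atTop (show (0 : ℝ) < 1 / 2 by norm_num)).tendsto_div_nhds_zero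
      refine this.congr fun x => ?_
      rw [Real.sqrt_eq_rpow]
    have h2 : Tendsto (fun N : ℕ => Real.log (N : ℝ) / √(N : ℝ)) atTop (𝓝 0) :=
      h1.comp tendsto_natCast_atTop_atTop
    have h3 : Tendsto (fun N : ℕ => 2048 / Real.log (N : ℝ)) atTop (𝓝 0) :=
      Tendsto.div_atTop tendsto_const_nhds
        (Real.tendsto_log_atTop.comp tendsto_natCast_atTop_atTop)
    have := (h2.const_mul 4).add h3
    simpa using this
  refine squeeze_zero' (Eventually.of_forall fun N => by positivity) ?_ hlim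
  filter_upwards [hpi, eventually_ge_atTop 3] with N hN hN2
  have hN' : (3 : ℝ) ≤ N := by exact_mod_cast hN2
  have hlog : 0 < Real.log N := Real.log_pos (by linarith)
  have hpos : (0 : ℝ) < (N : ℝ) / (4 * Real.log N) := by positivity
  have hsq : (0 : ℝ) < √(N : ℝ) := Real.sqrt_pos.2 (by linarith)
  calc (f N : ℝ) / Nat.primeCounting N
      ≤ (√(N : ℝ) + 512 * N / Real.log N ^ 2) / ((N : ℝ) / (4 * Real.log N)) := by
        refine div_le_div₀ (by positivity) (hf N hN2) hpos hN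
    _ = 4 * (Real.log N / √(N : ℝ)) + 2048 / Real.log N := by
        have h1 : (N : ℝ) = √(N : ℝ) * √(N : ℝ) := (Real.mul_self_sqrt (by linarith)).symm
        have h2 : (√(N : ℝ)) / ((N : ℝ) / (4 * Real.log N)) = 4 * (Real.log N / √(N : ℝ)) := by
          rw [div_div_eq_mul_div]
          rw [div_eq_iff (by positivity)]
          have h3 : 4 * (Real.log N / √(N : ℝ)) * N = 4 * Real.log N * (N / √(N : ℝ)) := by ring
          rw [h3, Real.div_sqrt]
          ring
        rw [add_div, h2]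
        congr 1
        field_simp
        ring

theorem tendsto_bad :
    Tendsto (fun N : ℕ => ((bad N).card : ℝ) / Nat.primeCounting N) atTop (𝓝 0) :=
  tendsto_of_card fun _ hN => bad_card (by omega)

theorem tendsto_early :
    Tendsto (fun N : ℕ => ((early N).card : ℝ) / Nat.primeCounting N) atTop (𝓝 0) :=
  tendsto_of_card fun _ hN => early_card hN

end H65E
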