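import Pool.Agent.Lib.H65E.All

/-! # H65E, file Mono: the levels increase (MP_73a90e_al) -/

set_option autoImplicit false

namespace H65E

open Pool.H87G H87L

/-- If the functions of `N` variables which miss a variable generate, then so do those of `N + 1` variables. -/
theorem lev_mono {F : Set (POp Bool)} {N : ℕ} (hN : 1 ≤ N) (hF : Generates F (Lev N)) :
    Generates F (Lev (N + 1)) := by
  intro S hS hX
  apply Set.eq_univ_of_forall
  intro G
  have hK := base_sys hN (rule_lev hF hS)
  obtain ⟨p, hp⟩ : ∃ p : Fin (N + 1) → Fin N, Function.Surjective p :=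
    ⟨fun k => ⟨min k (N - 1), by omega⟩, fun i => ⟨i.castSucc, Fin.ext (by
      have := i.2
      show min (i : ℕ) (N - 1) = i
      omega)⟩⟩
  obtain ⟨P, hP⟩ : ∃ P : Fin N → Setoid (Fin (N + 1) → Bool),
      P = fun i => ⨅ k, ⨅ _ : p k = i, Setoid.ker fun z : Fin (N + 1) → Bool => z k := ⟨_, rfl⟩
  have h := hK.rule P (fun _ => bot_le) (fun j => by
    intro f hf
    obtain ⟨k0, hk0⟩ := hp j
    refine hX ⟨k0, fun y z hyz => hf ?_⟩
    rw [rel_iInf]
    intro i
    rw [rel_iInf]
    intro hi
    rw [hP, rel_iInf]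
    intro k
    rw [rel_iInf]
    intro hk
    refine hyz k fun e => hi ?_
    rw [← hk, e, hk0])
  refine h G fun y z hyz => ?_
  have e : y = z := by
    funext k
    have h1 := rel_iInf.1 hyz (p k)
    rw [hP] at h1
    exact rel_iInf.1 (rel_iInf.1 h1 k) rfl
  exact congrArg G e

theorem lev_mono' {F : Set (POp Bool)} {N M : ℕ} (hN : 1 ≤ N) (hNM : N ≤ M) (hF : Generates F (Lev N)) :
    Generates F (Lev M) := by
  induction M, hNM using Nat.le_induction with
  | base => exact hF
  | succ M hM ih => exact lev_mono (hN.trans hM) ih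

/-- Every family of partial operations with a small value `d (n)` has a level. -/
theorem exists_level {F : Set (POp Bool)} {n : ℕ} (hn : 3 ≤ n) (hd : 2 * d F n < n) :
    ∃ N, 3 ≤ N ∧ Generates F (Lev N) := by
  obtain ⟨N, hN, h⟩ := H87L.exists_level F hn hd
  exact ⟨max N 3, le_max_right _ _, lev_mono' hN (le_max_left _ _) h⟩

/-- The bound on all levels, every family with a small value has a level, and the algebra `A_2` has the level 3. -/
theorem all :
    (∀ (F : Set (POp Bool)) (N : ℕ), 3 ≤ N → Generates F (Lev N) → ∀ n : ℕ, 2 ≤ n →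
      (d F n : ℝ) ≤ 2 ^ (6 * 2 ^ (N - 3) + 3 * (N - 3) + 29) * Real.logb 2 n ^ (N - 2) *
        2 ^ (10 * √(Real.logb 2 (Real.logb 2 n)))) ∧
    (∀ (F : Set (POp Bool)) (n : ℕ), 3 ≤ n → 2 * d F n < n → ∃ N, 3 ≤ N ∧ Generates F (Lev N)) ∧
    Generates H38P.Alg (Lev 3) :=
  ⟨fun _ _ hN hF n hn => main_all hN hF n hn, fun _ _ hn hd => exists_level hn hd, alg_two⟩

end H65E
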