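import Pool.Agent.Lib.H65E.Basic

/-!
# H65E: no prime `p > a` divides all Euler numbers with index between `a` and `2a`

The orthogonal polynomials `P_{n+1} = x P_n + n^2 P_{n-1}` of the moment functional `L(x^{2k}) = E_{2k}` have integer
coefficients and `L(x^n P_n) = (-1)^n (n!)^2`.
-/

set_option autoImplicit false

namespace H65E

open Polynomial

/-- the moments: `E_k` for even `k`, `0` for odd `k` -/
def mom (k : ℕ) : ℤ := if Even k then eul (k / 2) else 0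

theorem mom_even (k : ℕ) : mom (2 * k) = eul k := by
  unfold mom
  rw [if_pos (even_two_mul k), Nat.mul_div_cancel_left _ (by norm_num)]

theorem mom_odd {k : ℕ} (h : ¬ Even k) : mom k = 0 := if_neg h

/-- the moment functional -/
noncomputable def Lf : ℤ[X] →ₗ[ℤ] ℤ := Polynomial.lsum fun k => LinearMap.toSpanSingleton ℤ ℤ (mom k)

theorem Lf_monomial (k : ℕ) (a : ℤ) : Lf (monomial k a) = a * mom k := by
  unfold Lf
  rw [Polynomial.lsum_apply, Polynomial.sum_monomial_index _ _ (by simp)]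
  simp

theorem Lf_X_pow (k : ℕ) : Lf (X ^ k) = mom k := by
  rw [← monomial_one_right_eq_X_pow, Lf_monomial, one_mul]

theorem Lf_C_mul (a : ℤ) (f : ℤ[X]) : Lf (C a * f) = a * Lf f := by
  rw [C_mul', map_smul, smul_eq_mul]

/-- `f(x+1) + f(x-1)` -/
noncomputable def CC (f : ℤ[X]) : ℤ[X] := f.comp (X + 1) + f.comp (X - 1)

/-- `f(x+1) - f(x-1)` -/
noncomputable def SS (f : ℤ[X]) : ℤ[X] := f.comp (X + 1) - f.comp (X - 1)

theorem CC_add (f g : ℤ[X]) : CC (f + g) = CC f + CC g := by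
  unfold CC; rw [add_comp, add_comp]; ring

theorem CC_sub (f g : ℤ[X]) : CC (f - g) = CC f - CC g := by
  unfold CC; rw [sub_comp, sub_comp]; ring

theorem SS_add (f g : ℤ[X]) : SS (f + g) = SS f + SS g := by
  unfold SS; rw [add_comp, add_comp]; ring

theorem CC_C_mul (a : ℤ) (f : ℤ[X]) : CC (C a * f) = C a * CC f := by
  unfold CC; rw [mul_comp, mul_comp, C_comp, C_comp]; ring

theorem SS_C_mul (a : ℤ) (f : ℤ[X]) : SS (C a * f) = C a * SS f := by
  unfold SS; rw [mul_comp, mul_comp, C_comp, C_comp]; ring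

theorem CC_X_mul (f : ℤ[X]) : CC (X * f) = X * CC f + SS f := by
  unfold CC SS; rw [mul_comp, mul_comp, X_comp, X_comp]; ring

theorem SS_X_mul (f : ℤ[X]) : SS (X * f) = X * SS f + CC f := by
  unfold CC SS; rw [mul_comp, mul_comp, X_comp, X_comp]; ring

theorem Lf_add_pow (m : ℕ) : Lf (CC (X ^ m)) =
    ∑ k ∈ Finset.range (m + 1), (1 + (-1) ^ (m - k)) * (m.choose k : ℤ) * mom k := by
  unfold CC
  rw [pow_comp, pow_comp, X_comp, X_comp, sub_eq_add_neg, add_pow, add_pow, ← Finset.sum_add_distrib,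
    map_sum]
  refine Finset.sum_congr rfl fun k _ => ?_
  have h : (X : ℤ[X]) ^ k * 1 ^ (m - k) * (m.choose k : ℤ[X]) + X ^ k * (-1) ^ (m - k) * (m.choose k : ℤ[X]) =
      C ((1 + (-1) ^ (m - k)) * (m.choose k : ℤ)) * X ^ k := by
    simp only [one_pow, map_mul, map_add, map_one, map_pow, map_neg, map_natCast]
    ring
  rw [h, Lf_C_mul, Lf_X_pow]

theorem sum_even_eq (n : ℕ) (f : ℕ → ℤ) (hf : ∀ k, ¬ Even k → f k = 0) :
    ∑ k ∈ Finset.range (2 * n + 1), f k = ∑ k ∈ Finset.range (n + 1), f (2 * k) := by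
  induction n with
  | zero => simp
  | succ n ih =>
    rw [show 2 * (n + 1) + 1 = (2 * n + 1) + 1 + 1 by ring, Finset.sum_range_succ,
      Finset.sum_range_succ, ih, Finset.sum_range_succ _ (n + 1),
      hf (2 * n + 1) (by rw [Nat.not_even_iff_odd]; exact ⟨n, rfl⟩), add_zero,
      show 2 * n + 1 + 1 = 2 * (n + 1) by ring]

theorem Lf_CC_X_pow (m : ℕ) : Lf (CC (X ^ m)) = 2 * (X ^ m : ℤ[X]).eval 0 := by
  rw [Lf_add_pow]
  rcases Nat.even_or_odd m with hm | hm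
  · obtain ⟨n, hn⟩ := hm
    have hm2 : m = 2 * n := by omega
    subst hm2
    rw [sum_even_eq n _ fun k hk => by rw [mom_odd hk, mul_zero]]
    have h1 : ∀ k ∈ Finset.range (n + 1),
        (1 + (-1 : ℤ) ^ (2 * n - 2 * k)) * ((2 * n).choose (2 * k) : ℤ) * mom (2 * k) =
        2 * (((2 * n).choose (2 * k) : ℤ) * eul k) := by
      intro k hk
      rw [mom_even, show 2 * n - 2 * k = 2 * (n - k) by omega, pow_mul, neg_one_sq, one_pow]
      ring
    rw [Finset.sum_congr rfl h1, ← Finset.mul_sum]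
    rcases Nat.eq_zero_or_pos n with h0 | h0
    · subst h0
      simp [eul_zero]
    · rw [eul_sum (by omega), eval_pow, eval_X, zero_pow (by omega)]
  · have h1 : ∀ k ∈ Finset.range (m + 1), (1 + (-1 : ℤ) ^ (m - k)) * (m.choose k : ℤ) * mom k = 0 := by
      intro k hk
      have hk' := Finset.mem_range.1 hk
      by_cases hk2 : Even k
      · have h2 : Odd (m - k) := Nat.Odd.sub_even (by omega) hm hk2
        rw [h2.neg_one_pow]
        ring
      · rw [mom_odd hk2, mul_zero]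
    rw [Finset.sum_eq_zero h1, eval_pow, eval_X, zero_pow hm.pos.ne', mul_zero]

theorem Lf_CC (f : ℤ[X]) : Lf (CC f) = 2 * f.eval 0 := by
  induction f using Polynomial.induction_on' with
  | add p q hp hq => rw [CC_add, map_add, hp, hq, eval_add]; ring
  | monomial n a =>
    rw [← C_mul_X_pow_eq_monomial, CC_C_mul, Lf_C_mul, Lf_CC_X_pow, eval_mul, eval_C]
    ring

/-- `P_{n+1} = x P_n + n^2 P_{n-1}` -/
noncomputable def PP : ℕ → ℤ[X]
  | 0 => 1
  | 1 => X
  | n + 2 => X * PP (n + 1) + C (((n : ℤ) + 1) ^ 2) * PP n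

/-- `D_{n+1} = x D_n + n (n + 1) D_{n-1}` -/
noncomputable def DD : ℕ → ℤ[X]
  | 0 => 1
  | 1 => X
  | n + 2 => X * DD (n + 1) + C (((n : ℤ) + 1) * (n + 2)) * DD n

/-- `A_{n+1} = x A_n + n (n + 2) A_{n-1}` -/
noncomputable def AA : ℕ → ℤ[X]
  | 0 => 2
  | 1 => 2 * X
  | n + 2 => X * AA (n + 1) + C (((n : ℤ) + 1) * (n + 3)) * AA n

theorem CC_one : CC 1 = 2 := by
  unfold CC; rw [one_comp, one_comp]; norm_num

theorem CC_X : CC X = 2 * X := by
  unfold CC; rw [X_comp, X_comp]; ring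

theorem SS_one : SS 1 = 0 := by
  unfold SS; rw [one_comp, one_comp]; ring

theorem SS_X : SS X = 2 := by
  unfold SS; rw [X_comp, X_comp]; ring

theorem CC_DD (n : ℕ) : CC (DD n) = AA n ∧ CC (DD (n + 1)) = AA (n + 1) ∧
    SS (DD (n + 1)) = C ((n : ℤ) + 1) * AA n ∧ SS (DD (n + 2)) = C ((n : ℤ) + 2) * AA (n + 1) := by
  induction n with
  | zero =>
    have h0 : CC (DD 0) = AA 0 := CC_one
    have h1 : CC (DD 1) = AA 1 := CC_X
    have h2 : SS (DD 1) = C ((0 : ℤ) + 1) * AA 0 := by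
      show SS X = _
      rw [SS_X]
      simp [AA]
    refine ⟨h0, h1, by simpa using h2, ?_⟩
    show SS (X * DD 1 + C ((((0 : ℕ) : ℤ) + 1) * ((0 : ℕ) + 2)) * DD 0) = C (((0 : ℕ) : ℤ) + 2) * AA 1
    rw [SS_add, SS_X_mul, SS_C_mul, h1, h2]
    show X * (C ((0 : ℤ) + 1) * AA 0) + AA 1 + C ((((0 : ℕ) : ℤ) + 1) * ((0 : ℕ) + 2)) * SS 1 =
      C (((0 : ℕ) : ℤ) + 2) * AA 1
    rw [SS_one]
    simp only [AA]
    simp
    ring
  | succ n ih =>
    obtain ⟨h1, h2, h3, h4⟩ := ih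
    have e1 : AA (n + 2) = X * AA (n + 1) + C (((n : ℤ) + 1) * (n + 3)) * AA n := rfl
    have e2 : AA (n + 3) = X * AA (n + 2) + C ((((n + 1 : ℕ) : ℤ) + 1) * ((n + 1 : ℕ) + 3)) * AA (n + 1) := rfl
    have d1 : DD (n + 2) = X * DD (n + 1) + C (((n : ℤ) + 1) * (n + 2)) * DD n := rfl
    have d2 : DD (n + 3) = X * DD (n + 2) + C ((((n + 1 : ℕ) : ℤ) + 1) * ((n + 1 : ℕ) + 2)) * DD (n + 1) := rfl
    have h5 : CC (DD (n + 2)) = AA (n + 2) := by
      rw [d1, CC_add, CC_X_mul, CC_C_mul, h1, h2, h3, e1]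
      simp only [map_mul, map_add, map_one, map_natCast, map_ofNat]
      ring
    refine ⟨h2, h5, ?_, ?_⟩
    · show SS (DD (n + 2)) = _
      rw [h4]
      push_cast
      simp only [map_add, map_one, map_natCast, map_ofNat]
      ring
    · show SS (DD (n + 3)) = C (((n + 1 : ℕ) : ℤ) + 2) * AA (n + 2)
      rw [d2, SS_add, SS_X_mul, SS_C_mul, h4, h5, h3, e1]
      push_cast
      simp only [map_mul, map_add, map_one, map_natCast, map_ofNat]
      ring

theorem two_PP (n : ℕ) : 2 * PP (n + 2) = AA (n + 2) - C (((n : ℤ) + 1) * (n + 2)) * AA n ∧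
    2 * PP (n + 3) = AA (n + 3) - C (((n : ℤ) + 2) * (n + 3)) * AA (n + 1) := by
  induction n with
  | zero =>
    constructor
    · simp only [PP, AA]
      simp
      ring
    · simp only [PP, AA]
      simp
      ring
  | succ n ih =>
    obtain ⟨h1, h2⟩ := ih
    refine ⟨by rw [show n + 1 + 2 = n + 3 by ring, h2]; push_cast; ring_nf, ?_⟩
    have e0 : AA (n + 2) = X * AA (n + 1) + C (((n : ℤ) + 1) * (n + 3)) * AA n := rfl
    have e1 : AA (n + 3) = X * AA (n + 2) + C ((((n + 1 : ℕ) : ℤ) + 1) * ((n + 1 : ℕ) + 3)) * AA (n + 1) := rfl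
    have e2 : AA (n + 4) = X * AA (n + 3) + C ((((n + 2 : ℕ) : ℤ) + 1) * ((n + 2 : ℕ) + 3)) * AA (n + 2) := rfl
    have p1 : PP (n + 4) = X * PP (n + 3) + C ((((n + 2 : ℕ) : ℤ) + 1) ^ 2) * PP (n + 2) := rfl
    show 2 * PP (n + 4) = AA (n + 4) - C ((((n + 1 : ℕ) : ℤ) + 2) * ((n + 1 : ℕ) + 3)) * AA (n + 2)
    have h3 : 2 * PP (n + 4) = X * (2 * PP (n + 3)) + C ((((n + 2 : ℕ) : ℤ) + 1) ^ 2) * (2 * PP (n + 2)) := by
      rw [p1]; ring
    rw [h3, h1, h2, e2, e1, e0]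
    push_cast
    simp only [map_mul, map_add, map_one, map_natCast, map_ofNat, map_pow]
    ring

theorem Lf_PP_zero : Lf (PP 0) = 1 := by
  show Lf 1 = 1
  rw [← pow_zero (X : ℤ[X]), Lf_X_pow]
  exact mom_even 0 ▸ eul_zero

theorem Lf_PP (n : ℕ) : Lf (PP (n + 1)) = 0 := by
  rcases n with _ | n
  · show Lf X = 0
    rw [← pow_one (X : ℤ[X]), Lf_X_pow]
    exact mom_odd (by decide)
  · have h1 := (two_PP n).1
    have h2 : AA (n + 2) - C (((n : ℤ) + 1) * (n + 2)) * AA n =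
        CC (DD (n + 2) - C (((n : ℤ) + 1) * (n + 2)) * DD n) := by
      rw [CC_sub, CC_C_mul, (CC_DD n).1, (CC_DD (n + 1)).2.1]
    have h3 : (DD (n + 2) - C (((n : ℤ) + 1) * (n + 2)) * DD n).eval 0 = 0 := by
      have d1 : DD (n + 2) = X * DD (n + 1) + C (((n : ℤ) + 1) * (n + 2)) * DD n := rfl
      rw [d1]
      simp
    have h4 : Lf (2 * PP (n + 2)) = 0 := by
      rw [h1, h2, Lf_CC, h3, mul_zero]
    have h5 : (2 : ℤ[X]) * PP (n + 2) = C 2 * PP (n + 2) := by simp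
    rw [h5, Lf_C_mul] at h4
    show Lf (PP (n + 2)) = 0
    linarith

theorem Lf_X_pow_PP (j : ℕ) : (∀ n, j < n → Lf (X ^ j * PP n) = 0) ∧
    Lf (X ^ j * PP j) = (-1) ^ j * ((j.factorial : ℤ)) ^ 2 := by
  have hrec : ∀ (j n : ℕ), Lf (X ^ (j + 1) * PP (n + 1)) =
      Lf (X ^ j * PP (n + 2)) - ((n : ℤ) + 1) ^ 2 * Lf (X ^ j * PP n) := by
    intro j n
    have p1 : PP (n + 2) = X * PP (n + 1) + C (((n : ℤ) + 1) ^ 2) * PP n := rfl
    have h : X ^ (j + 1) * PP (n + 1) = X ^ j * PP (n + 2) - C (((n : ℤ) + 1) ^ 2) * (X ^ j * PP n) := by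
      rw [p1, pow_succ]; ring
    rw [h, map_sub, Lf_C_mul]
  induction j with
  | zero =>
    refine ⟨fun n hn => ?_, ?_⟩
    · obtain ⟨k, rfl⟩ : ∃ k, n = k + 1 := ⟨n - 1, by omega⟩
      rw [pow_zero, one_mul]
      exact Lf_PP k
    · rw [pow_zero, one_mul, Lf_PP_zero]
      simp
  | succ j ih =>
    obtain ⟨h1, h2⟩ := ih
    refine ⟨fun n hn => ?_, ?_⟩
    · obtain ⟨k, rfl⟩ : ∃ k, n = k + 1 := ⟨n - 1, by omega⟩
      rw [hrec, h1 (k + 2) (by omega), h1 k (by omega)]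
      ring
    · rw [hrec, h1 (j + 2) (by omega), h2, Nat.factorial_succ]
      push_cast
      ring

theorem natDegree_PP (n : ℕ) : (PP n).natDegree ≤ n ∧ (PP (n + 1)).natDegree ≤ n + 1 := by
  induction n with
  | zero => exact ⟨by simp [PP], by simp [PP]⟩
  | succ n ih =>
    obtain ⟨h1, h2⟩ := ih
    refine ⟨h2, ?_⟩
    have p1 : PP (n + 2) = X * PP (n + 1) + C (((n : ℤ) + 1) ^ 2) * PP n := rfl
    show (PP (n + 2)).natDegree ≤ n + 2
    rw [p1]
    refine (natDegree_add_le _ _).trans (max_le ?_ ?_)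
    · refine natDegree_mul_le.trans ?_
      have := natDegree_X_le (R := ℤ)
      omega
    · refine (natDegree_C_mul_le _ _).trans ?_
      omega

theorem Lf_eq_sum (f : ℤ[X]) {n : ℕ} (hf : f.natDegree ≤ n) :
    Lf f = ∑ k ∈ Finset.range (n + 1), f.coeff k * mom k := by
  conv_lhs => rw [f.as_sum_range' (n + 1) (by omega)]
  rw [map_sum]
  refine Finset.sum_congr rfl fun k _ => Lf_monomial _ _

/-- No prime `p > a` divides all Euler numbers `E_{2k}` with `a ≤ 2k ≤ 2a`. -/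
theorem exists_not_dvd {p a : ℕ} (hp : p.Prime) (ha : a < p) :
    ∃ k : ℕ, a ≤ 2 * k ∧ 2 * k ≤ 2 * a ∧ ¬ (p : ℤ) ∣ eul k := by
  by_contra hcon
  push Not at hcon
  have h1 : Lf (X ^ a * PP a) = ∑ k ∈ Finset.range (a + a + 1), (X ^ a * PP a).coeff k * mom k := by
    refine Lf_eq_sum _ (natDegree_mul_le.trans ?_)
    have := (natDegree_PP a).1
    rw [natDegree_X_pow]
    omega
  have h2 : (p : ℤ) ∣ Lf (X ^ a * PP a) := by
    rw [h1]
    refine Finset.dvd_sum fun k hk => ?_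
    have hk' := Finset.mem_range.1 hk
    by_cases hka : a ≤ k
    · by_cases hev : Even k
      · obtain ⟨c, hc⟩ := hev
        have hc2 : k = 2 * c := by omega
        rw [hc2, mom_even]
        exact Dvd.dvd.mul_left (hcon c (by omega) (by omega)) _
      · rw [mom_odd hev, mul_zero]
        exact dvd_zero _
    · rw [coeff_X_pow_mul', if_neg (by omega), zero_mul]
      exact dvd_zero _
  rw [(Lf_X_pow_PP a).2] at h2
  have h3 : (p : ℤ) ∣ ((a.factorial : ℤ)) ^ 2 := by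
    have : ((a.factorial : ℤ)) ^ 2 = (-1) ^ a * ((-1) ^ a * ((a.factorial : ℤ)) ^ 2) := by
      rw [← mul_assoc, ← mul_pow]
      simp
    rw [this]
    exact Dvd.dvd.mul_left h2 _
  have h4 : p ∣ a.factorial := by
    have := Int.Prime.dvd_pow' hp h3
    exact_mod_cast this
  exact absurd ((Nat.Prime.dvd_factorial hp).1 h4) (by omega)

end H65E
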