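import Pool.Agent.Lib.H87L.Base

/-! # H65E, file Sys: systems of known partitions (MP_73a90e_al)

`Sys N b K`: on the partitions coarser than `b` the family `K` is closed under coarsening, and `N` partitions are known
together as soon as every `N - 1` of them are known together. -/

set_option autoImplicit false

namespace H65E

open Pool.H87G H87L

/-- a system of known partitions of rank `N` over the partition `b` -/
structure Sys (N : ℕ) {Ω : Type} (b : Setoid Ω) (K : Set (Setoid Ω)) : Prop where
  up : ∀ P Q : Setoid Ω, b ≤ P → P ≤ Q → P ∈ K → Q ∈ K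
  rule : ∀ P : Fin N → Setoid Ω, (∀ i, b ≤ P i) → (∀ j, (⨅ i, ⨅ _ : i ≠ j, P i) ∈ K) → (⨅ i, P i) ∈ K

/-- the known partitions of a family of functions -/
def kn {Ω : Type} (V : Set (Ω → Bool)) : Set (Setoid Ω) := {P | ∀ f : Ω → Bool, P ≤ Setoid.ker f → f ∈ V}

theorem rel_iInf {Ω : Type} {ι : Sort*} {P : ι → Setoid Ω} {x y : Ω} : (⨅ i, P i) x y ↔ ∀ i, P i x y := by
  constructor
  · intro h i
    exact (iInf_le P i) h
  · intro h
    rw [iInf, Setoid.sInf_def]
    simpa using h

theorem base_sys {Ω : Type} [Finite Ω] {N : ℕ} (hN : 1 ≤ N) {V : Set (Ω → Bool)} (hV : LRule N V) :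
    Sys N ⊥ (kn V) where
  up := fun P Q _ h hP f hf => hP f (h.trans hf)
  rule := by
    intro P _ h f hf
    classical
    obtain ⟨F0, hF0⟩ : ∃ F0 : Set (Ω → Bool), F0 = {g | ∃ i, P i ≤ Setoid.ker g} := ⟨_, rfl⟩
    have hne : F0.Nonempty := ⟨fun _ => true, by rw [hF0]; exact ⟨⟨0, hN⟩, fun _ _ _ => rfl⟩⟩
    have hPi : PiProp N V F0 := by
      rintro v hv G ⟨j, hj⟩
      rw [hF0] at hv
      choose s hs using hv
      obtain ⟨j0, hj0⟩ : ∃ j0 : Fin N, ∀ i, i ≠ j → s i ≠ j0 := by
        by_contra hcon
        push Not at hcon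
        choose t ht hst using hcon
        have hinj : Function.Injective t := by
          intro a c hac
          rw [← hst a, ← hst c, hac]
        have hsur := Finite.surjective_of_injective hinj
        obtain ⟨a, ha⟩ := hsur j
        exact ht a ha
      refine h j0 _ ?_
      intro x y hxy
      show G (fun l => v l x) = G fun l => v l y
      apply hj
      intro i hi
      refine hs i ?_
      have h1 := (rel_iInf.1 hxy) (s i)
      exact (rel_iInf.1 h1) (hj0 i hi)
    have : Fintype (Fin N × Ω) := Fintype.ofFinite _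
    obtain ⟨σ⟩ : Nonempty (Fin (Fintype.card (Fin N × Ω)) ≃ Fin N × Ω) := ⟨(Fintype.equivFin _).symm⟩
    obtain ⟨cls, hcls⟩ : ∃ cls : Fin N × Ω → Ω → Bool, cls = fun p z => decide (P p.1 p.2 z) := ⟨_, rfl⟩
    obtain ⟨w, hw⟩ : ∃ w : Fin (Fintype.card (Fin N × Ω)) → Ω → Bool, w = fun i z => cls (σ i) z := ⟨_, rfl⟩
    have hfac : Function.FactorsThrough f fun z i => w i z := by
      intro x y hxy
      apply hf
      rw [rel_iInf]
      intro i
      have h1 : w (σ.symm (i, x)) x = w (σ.symm (i, x)) y := congrFun hxy (σ.symm (i, x))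
      rw [hw] at h1
      have h2 : cls (i, x) x = cls (i, x) y := by
        have e := σ.apply_symm_apply (i, x)
        rw [← e]
        exact h1
      rw [hcls] at h2
      have h3 : decide (P i x y) = true := by
        have h4 : decide (P i x x) = decide (P i x y) := h2
        rw [← h4]
        exact decide_eq_true ((P i).refl x)
      exact of_decide_eq_true h3
    have h1 := C1 hN V hV F0 hne hPi (Fintype.card (Fin N × Ω)) w (fun i => by
      rw [hF0, hw, hcls]
      refine ⟨(σ i).1, fun x y hxy => ?_⟩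
      show decide (P (σ i).1 (σ i).2 x) = decide (P (σ i).1 (σ i).2 y)
      have : P (σ i).1 (σ i).2 x ↔ P (σ i).1 (σ i).2 y :=
        ⟨fun h => (P _).trans h hxy, fun h => (P _).trans h ((P _).symm hxy)⟩
      simp only [this]) (Function.extend (fun z i => w i z) f fun _ => false)
    have e : (fun z => Function.extend (fun z i => w i z) f (fun _ => false) fun i => w i z) = f := by
      funext z
      exact hfac.extend_apply _ z
    rw [e] at h1
    exact h1

/-- One known word and one more partition: a system of the next smaller rank. -/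
theorem rel_sys {Ω : Type} {N : ℕ} {b c w : Setoid Ω} {K : Set (Setoid Ω)} (hK : Sys (N + 1) b K) (hbc : b ≤ c)
    (hc : c ∈ K) (hw : b ≤ w) : Sys N c {P | P ⊓ w ∈ K} where
  up := fun P Q hP hPQ h => hK.up _ _ (le_inf (hbc.trans hP) hw) (inf_le_inf_right w hPQ) h
  rule := by
    intro P hP h
    have hrule := hK.rule (Fin.cons w P) (fun i => by
      refine Fin.cases ?_ (fun i => ?_) i
      · exact hw
      · exact hbc.trans (hP i)) (fun j => ?_)
    · have e : (⨅ i, (Fin.cons w P : Fin (N + 1) → Setoid Ω) i) = (⨅ i, P i) ⊓ w := by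
        apply le_antisymm
        · exact le_inf (le_iInf fun i => iInf_le (Fin.cons w P : Fin (N + 1) → Setoid Ω) i.succ)
            (iInf_le (Fin.cons w P : Fin (N + 1) → Setoid Ω) 0)
        · refine le_iInf fun i => ?_
          refine Fin.cases ?_ (fun i => ?_) i
          · exact inf_le_right
          · exact inf_le_left.trans (iInf_le P i)
      rw [e] at hrule
      exact hrule
    · revert j
      intro j
      refine Fin.cases ?_ (fun j => ?_) j
      · refine hK.up c _ hbc ?_ hc
        refine le_iInf fun i => le_iInf fun hi => ?_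
        revert hi
        refine Fin.cases ?_ (fun i => ?_) i
        · intro hi
          exact absurd rfl hi
        · intro _
          exact hP i
      · refine hK.up _ _ ?_ ?_ (h j)
        · exact le_inf (le_iInf fun i => le_iInf fun _ => hbc.trans (hP i)) hw
        · refine le_iInf fun i => le_iInf fun hi => ?_
          revert hi
          refine Fin.cases ?_ (fun i => ?_) i
          · intro _
            exact inf_le_right
          · intro hi
            have hij : i ≠ j := fun e => hi (by rw [e])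
            exact inf_le_left.trans ((iInf_le _ i).trans (iInf_le _ hij))

section three

variable {Ω : Type} {b : Setoid Ω} {K : Set (Setoid Ω)}

/-- three partitions -/
theorem tri (hK : Sys 3 b K) {P Q R : Setoid Ω} (hP : b ≤ P) (hQ : b ≤ Q) (hR : b ≤ R) (h1 : P ⊓ Q ∈ K)
    (h2 : P ⊓ R ∈ K) (h3 : Q ⊓ R ∈ K) : P ⊓ (Q ⊓ R) ∈ K := by
  have hrule := hK.rule ![P, Q, R] (fun i => by fin_cases i <;> simpa) (fun j => by
    fin_cases j
    · refine hK.up _ _ (le_inf hQ hR) (le_iInf fun i => le_iInf fun hi => ?_) h3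
      fin_cases i
      · exact absurd rfl hi
      · exact inf_le_left
      · exact inf_le_right
    · refine hK.up _ _ (le_inf hP hR) (le_iInf fun i => le_iInf fun hi => ?_) h2
      fin_cases i
      · exact inf_le_left
      · exact absurd rfl hi
      · exact inf_le_right
    · refine hK.up _ _ (le_inf hP hQ) (le_iInf fun i => le_iInf fun hi => ?_) h1
      fin_cases i
      · exact inf_le_left
      · exact inf_le_right
      · exact absurd rfl hi)
  refine hK.up _ _ (le_iInf fun i => ?_) ?_ hrule
  · fin_cases i <;> simpa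
  · exact le_inf (iInf_le ![P, Q, R] 0) (le_inf (iInf_le ![P, Q, R] 1) (iInf_le ![P, Q, R] 2))

/-- One partition and a family. -/
theorem join1 (hK : Sys 3 b K) {ι : Type} [Finite ι] {P : ι → Setoid Ω} {Q : Setoid Ω} (hb : ∀ i, b ≤ P i)
    (hQb : b ≤ Q) (hP : (⨅ i, P i) ∈ K) (hQ : Q ∈ K) (h : ∀ i, P i ⊓ Q ∈ K) : (⨅ i, P i) ⊓ Q ∈ K := by
  classical
  have := Fintype.ofFinite ι
  have main : ∀ s : Finset ι, (⨅ i ∈ s, P i) ⊓ Q ∈ K := by
    intro s
    induction s using Finset.induction_on with
    | empty => exact hK.up Q _ hQb (le_inf (by simp) le_rfl) hQ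
    | insert a s ha ih =>
      have hbs : b ≤ ⨅ i ∈ s, P i := le_iInf fun i => le_iInf fun _ => hb i
      have h1 : P a ⊓ (⨅ i ∈ s, P i) ∈ K := by
        refine hK.up _ _ (le_iInf hb) ?_ hP
        exact le_inf (iInf_le P a) (le_iInf fun i => le_iInf fun _ => iInf_le P i)
      have h2 := tri hK (hb a) hbs hQb h1 (h a) ih
      rw [Finset.iInf_insert, inf_assoc]
      exact h2
  have h1 := main Finset.univ
  simpa using h1

/-- Two families. -/
theorem join2 (hK : Sys 3 b K) {ι κ : Type} [Finite ι] [Finite κ] {P : ι → Setoid Ω} {Q : κ → Setoid Ω}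
    (hb : ∀ i, b ≤ P i) (hb' : ∀ j, b ≤ Q j) (hP : (⨅ i, P i) ∈ K) (hQ : (⨅ j, Q j) ∈ K)
    (h : ∀ i j, P i ⊓ Q j ∈ K) : (⨅ i, P i) ⊓ (⨅ j, Q j) ∈ K := by
  rw [inf_comm]
  refine join1 hK hb' (le_iInf hb) hQ hP fun j => ?_
  rw [inf_comm]
  refine join1 hK hb (hb' j) hP (hK.up _ _ (le_iInf hb') (iInf_le Q j) hQ) fun i => h i j

end three

end H65E
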