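import Pool.Agent.Lib.H65E.Sys
import Pool.Agent.Lib.H87L.Rec
import Pool.Agent.Lib.H99E.ExplicitGen

/-! # H65E, file Three: rank 3 (MP_73a90e_al)

The construction of `H87L/Rec.lean` for systems of known partitions of rank 3. -/

set_option autoImplicit false

namespace H65E

open Pool.H87G H87L

theorem ker_comp_le {Ω X Y : Type} (x : Ω → X) (e : X → Y) : Setoid.ker x ≤ Setoid.ker fun z => e (x z) := by
  intro a c h
  show e (x a) = e (x c)
  rw [show x a = x c from h]

theorem ker_pair {Ω X Y : Type} (x : Ω → X) (y : Ω → Y) :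
    (Setoid.ker fun z => (x z, y z)) = Setoid.ker x ⊓ Setoid.ker y := by
  apply le_antisymm
  · intro a c h
    have h1 : (x a, y a) = (x c, y c) := h
    exact ⟨congrArg Prod.fst h1, congrArg Prod.snd h1⟩
  · intro a c h
    exact Prod.ext h.1 h.2

theorem ker_pi {Ω ι X : Type} (x : Ω → ι → X) : Setoid.ker x = ⨅ i, Setoid.ker fun z => x z i := by
  apply le_antisymm
  · exact le_iInf fun i => ker_comp_le x fun w => w i
  · intro a c h
    exact funext fun i => rel_iInf.1 h i

section

variable {Ω : Type} {b : Setoid Ω} {K : Set (Setoid Ω)}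

/-- The relation of two known words. -/
theorem bi_of' (hK : Sys 3 b K) {X Y : Type} {x : Ω → X} {y : Ω → Y} (hbx : b ≤ Setoid.ker x)
    (hby : b ≤ Setoid.ker y) (hx : Setoid.ker x ∈ K) (hy : Setoid.ker y ∈ K) :
    Bi fun (F : X → ZMod 3) (G : Y → ZMod 2) => Setoid.ker (fun z => (F (x z), G (y z))) ∈ K := by
  have bX : ∀ {Z : Type} (F : X → Z), b ≤ Setoid.ker fun z => F (x z) := fun F => hbx.trans (ker_comp_le x F)
  have bY : ∀ {Z : Type} (G : Y → Z), b ≤ Setoid.ker fun z => G (y z) := fun G => hby.trans (ker_comp_le y G)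
  have kX : ∀ {Z : Type} (F : X → Z), Setoid.ker (fun z => F (x z)) ∈ K :=
    fun F => hK.up _ _ hbx (ker_comp_le x F) hx
  have kY : ∀ {Z : Type} (G : Y → Z), Setoid.ker (fun z => G (y z)) ∈ K :=
    fun G => hK.up _ _ hby (ker_comp_le y G) hy
  have left : ∀ (op : ZMod 3 → ZMod 3 → ZMod 3) (F F' : X → ZMod 3) (G : Y → ZMod 2),
      Setoid.ker (fun z => (F (x z), G (y z))) ∈ K → Setoid.ker (fun z => (F' (x z), G (y z))) ∈ K →
      Setoid.ker (fun z => (op (F (x z)) (F' (x z)), G (y z))) ∈ K := by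
    intro op F F' G h h'
    rw [ker_pair (fun z => F (x z)) (fun z => G (y z))] at h
    rw [ker_pair (fun z => F' (x z)) (fun z => G (y z))] at h'
    have h0 := kX fun w => (F w, F' w)
    rw [ker_pair (fun z => F (x z)) (fun z => F' (x z))] at h0
    have h1 := tri hK (bX F) (bX F') (bY G) h0 h h'
    refine hK.up _ _ (le_inf (bX F) (le_inf (bX F') (bY G))) ?_ h1
    rw [ker_pair (fun z => op (F (x z)) (F' (x z))) (fun z => G (y z))]
    refine le_inf ?_ (inf_le_right.trans inf_le_right)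
    intro a c hac
    have e1 : F (x a) = F (x c) := hac.1
    have e2 : F' (x a) = F' (x c) := hac.2.1
    show op (F (x a)) (F' (x a)) = op (F (x c)) (F' (x c))
    rw [e1, e2]
  have right : ∀ (op : ZMod 2 → ZMod 2 → ZMod 2) (F : X → ZMod 3) (G G' : Y → ZMod 2),
      Setoid.ker (fun z => (F (x z), G (y z))) ∈ K → Setoid.ker (fun z => (F (x z), G' (y z))) ∈ K →
      Setoid.ker (fun z => (F (x z), op (G (y z)) (G' (y z)))) ∈ K := by
    intro op F G G' h h'
    rw [ker_pair (fun z => F (x z)) (fun z => G (y z))] at h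
    rw [ker_pair (fun z => F (x z)) (fun z => G' (y z))] at h'
    have h0 := kY fun w => (G w, G' w)
    rw [ker_pair (fun z => G (y z)) (fun z => G' (y z))] at h0
    have h1 := tri hK (bX F) (bY G) (bY G') h h' h0
    refine hK.up _ _ (le_inf (bX F) (le_inf (bY G) (bY G'))) ?_ h1
    rw [ker_pair (fun z => F (x z)) (fun z => op (G (y z)) (G' (y z)))]
    refine le_inf inf_le_left ?_
    intro a c hac
    have e1 : G (y a) = G (y c) := hac.2.1
    have e2 : G' (y a) = G' (y c) := hac.2.2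
    show op (G (y a)) (G' (y a)) = op (G (y c)) (G' (y c))
    rw [e1, e2]
  exact
    { zl := fun G => kY fun w => ((0 : ZMod 3), G w)
      zr := fun F => kX fun w => (F w, (0 : ZMod 2))
      addl := fun F F' G h h' => left (fun a c => a + c) F F' G h h'
      subl := fun F F' G h h' => left (fun a c => a - c) F F' G h h'
      addr := fun F G G' h h' => right (fun a c => a + c) F G G' h h'
      subr := fun F G G' h h' => right (fun a c => a - c) F G G' h h' }

end

/-- `I` relations suffice for two letters of the alphabet `X`, in every system of rank 3. -/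
def Cross (X I : Type) : Prop :=
  ∃ (u : I → X → ZMod 3) (v : I → X → ZMod 2), ∀ (Ω : Type) (b : Setoid Ω) (K : Set (Setoid Ω)), Sys 3 b K →
    ∀ x y : Ω → X, b ≤ Setoid.ker x → b ≤ Setoid.ker y → Setoid.ker x ∈ K → Setoid.ker y ∈ K →
      (∀ i, Setoid.ker (fun z => (u i (x z), v i (y z))) ∈ K) → Setoid.ker (fun z => (x z, y z)) ∈ K

/-- `I` functions with values in `C` suffice for a letter of the alphabet `X`, in every system of rank `N`. -/
def Gen (N : ℕ) (C X I : Type) : Prop :=
  ∃ g : I → X → C, ∀ (Ω : Type) (b : Setoid Ω) (K : Set (Setoid Ω)), Sys N b K → ∀ x : Ω → X, b ≤ Setoid.ker x →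
    (∀ i, Setoid.ker (fun z => g i (x z)) ∈ K) → Setoid.ker x ∈ K

theorem ker_inj {Ω X Y : Type} {x : Ω → X} {e : X → Y} (he : Function.Injective e) :
    (Setoid.ker fun z => e (x z)) = Setoid.ker x := by
  apply le_antisymm
  · intro a c h
    exact he h
  · exact ker_comp_le x e

theorem cross_bool : Cross Bool (Fin 1) := by
  refine ⟨fun _ b => if b then 1 else 0, fun _ b => if b then 1 else 0, fun Ω b K hK x y _ _ _ _ h => ?_⟩
  have hinj : Function.Injective fun p : Bool × Bool =>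
      ((if p.1 then 1 else 0 : ZMod 3), (if p.2 then 1 else 0 : ZMod 2)) := by decide
  have h1 := h 0
  rw [← ker_inj (x := fun z => (x z, y z)) hinj]
  exact h1

theorem cross_grid {X I : Type} {k C n : ℕ} (hC : 0 < C) (e : (Fin k → Fin C) → Fin n → Bool)
    (he : Function.Injective e) (h : Cross X I) :
    Cross ((Fin k → Fin C) → X) (((Fin k → Fin (2 * C)) × Fin (k * C ^ 2 + 1) × Option (Fin n)) × I) := by
  obtain ⟨u, v, huv⟩ := h
  refine ⟨fun p => la hC e (fun c => p.1.1 c) p.1.2.1 p.1.2.2 (fun i (w : (Fin k → Fin C) → X) => u p.2 (w i)),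
    fun p => lb hC e (fun c => p.1.1 c) p.1.2.1 p.1.2.2 (fun i (w : (Fin k → Fin C) → X) => v p.2 (w i)),
    fun Ω b K hK x y hbx hby hx hy h => ?_⟩
  have bX : ∀ i, b ≤ Setoid.ker fun z => x z i := fun i => hbx.trans (ker_comp_le x fun w => w i)
  have bY : ∀ i, b ≤ Setoid.ker fun z => y z i := fun i => hby.trans (ker_comp_le y fun w => w i)
  rw [ker_pair, ker_pi x, ker_pi y]
  refine join2 hK bX bY (by rw [← ker_pi]; exact hx) (by rw [← ker_pi]; exact hy) fun i j => ?_
  rw [← ker_pair]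
  refine huv Ω b K hK _ _ (bX i) (bY j) (hK.up _ _ hbx (ker_comp_le x fun w => w i) hx)
    (hK.up _ _ hby (ker_comp_le y fun w => w j) hy) fun t => ?_
  have h3 : ∀ a : ((Fin k → Fin C) → X) → ZMod 3, a + a + a = 0 := by
    intro a
    funext w
    have : ∀ c : ZMod 3, c + c + c = 0 := by decide
    exact this (a w)
  have h2 : ∀ a : ((Fin k → Fin C) → X) → ZMod 2, a + a = 0 := by
    intro a
    funext w
    have : ∀ c : ZMod 2, c + c = 0 := by decide
    exact this (a w)
  exact grid hC (bi_of' hK hbx hby hx hy) h3 h2 (fun i (w : (Fin k → Fin C) → X) => u t (w i))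
    (fun i (w : (Fin k → Fin C) → X) => v t (w i)) e he (fun s r o => h ((s, r, o), t)) i j

theorem cross_emb {X Y I : Type} (h : Cross X I) (e : Y → X) (he : Function.Injective e) : Cross Y I := by
  obtain ⟨u, v, huv⟩ := h
  refine ⟨fun i y => u i (e y), fun i y => v i (e y), fun Ω b K hK x y hbx hby hx hy h => ?_⟩
  have h1 := huv Ω b K hK (fun z => e (x z)) (fun z => e (y z)) (by rw [ker_inj he]; exact hbx)
    (by rw [ker_inj he]; exact hby) (by rw [ker_inj he]; exact hx) (by rw [ker_inj he]; exact hy) h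
  rw [← ker_inj (x := fun z => (x z, y z)) (e := Prod.map e e) (he.prodMap he)]
  exact h1

theorem gen_bool : Gen 3 (ZMod 3 × ZMod 2) Bool (Fin 1) := by
  refine ⟨fun _ c => (if c then 1 else 0, 0), fun Ω b K hK x _ h => ?_⟩
  have hinj : Function.Injective fun c : Bool => ((if c then 1 else 0 : ZMod 3), (0 : ZMod 2)) := by decide
  rw [← ker_inj (x := x) hinj]
  exact h 0

theorem gen_sq {X I J : Type} (h : Gen 3 (ZMod 3 × ZMod 2) X I) (hc : Cross X J) :
    Gen 3 (ZMod 3 × ZMod 2) (X × X) ((I ⊕ I) ⊕ J) := by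
  obtain ⟨g, hg⟩ := h
  obtain ⟨u, v, huv⟩ := hc
  refine ⟨fun s => s.elim (fun s => s.elim (fun i p => g i p.1) (fun i p => g i p.2))
    (fun j p => (u j p.1, v j p.2)), fun Ω b K hK x hbx h => ?_⟩
  have b1 : b ≤ Setoid.ker fun z => (x z).1 := hbx.trans (ker_comp_le x Prod.fst)
  have b2 : b ≤ Setoid.ker fun z => (x z).2 := hbx.trans (ker_comp_le x Prod.snd)
  have h1 : Setoid.ker (fun z => (x z).1) ∈ K := hg Ω b K hK _ b1 fun i => h (Sum.inl (Sum.inl i))
  have h2 : Setoid.ker (fun z => (x z).2) ∈ K := hg Ω b K hK _ b2 fun i => h (Sum.inl (Sum.inr i))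
  exact huv Ω b K hK _ _ b1 b2 h1 h2 fun j => h (Sum.inr j)

theorem gen_emb {N : ℕ} {C X Y I : Type} (h : Gen N C X I) (e : Y → X) (he : Function.Injective e) : Gen N C Y I := by
  obtain ⟨g, hg⟩ := h
  refine ⟨fun i y => g i (e y), fun Ω b K hK x hbx h => ?_⟩
  rw [← ker_inj (x := x) he]
  exact hg Ω b K hK _ (by rw [ker_inj he]; exact hbx) h

/-- One more bit. -/
theorem gen_bit {N : ℕ} {C X I J : Type} (h : Gen (N + 1) (C × Bool) X I) (h' : Gen N C X J) :
    Gen (N + 1) (C × Bool) (X × Bool) (I ⊕ J) := by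
  obtain ⟨g, hg⟩ := h
  obtain ⟨g', hg'⟩ := h'
  refine ⟨fun s => s.elim (fun i p => g i p.1) (fun j p => (g' j p.1, p.2)), fun Ω b K hK x hbx h => ?_⟩
  have b1 : b ≤ Setoid.ker fun z => (x z).1 := hbx.trans (ker_comp_le x Prod.fst)
  have b2 : b ≤ Setoid.ker fun z => (x z).2 := hbx.trans (ker_comp_le x Prod.snd)
  have h1 : Setoid.ker (fun z => (x z).1) ∈ K := hg Ω b K hK _ b1 fun i => h (Sum.inl i)
  have hrel := rel_sys hK b1 h1 b2
  have h2 := hg' Ω _ _ hrel (fun z => (x z).1) le_rfl fun j => by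
    have h3 := h (Sum.inr j)
    show Setoid.ker (fun z => g' j (x z).1) ⊓ Setoid.ker (fun z => (x z).2) ∈ K
    rw [← ker_pair]
    exact h3
  have h4 : Setoid.ker (fun z => (x z).1) ⊓ Setoid.ker (fun z => (x z).2) ∈ K := h2
  rw [← ker_pair] at h4
  exact h4

theorem gen_one {N : ℕ} {C X : Type} [Nonempty C] [Subsingleton X] : Gen N C X (Fin 1) := by
  obtain ⟨c⟩ := ‹Nonempty C›
  refine ⟨fun _ _ => c, fun Ω b K hK x _ h => ?_⟩
  have e : Setoid.ker x = Setoid.ker fun z : Ω => (fun _ => c : X → C) (x z) := by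
    apply le_antisymm
    · exact ker_comp_le x fun _ => c
    · intro a a' _
      exact Subsingleton.elim _ _
  rw [e]
  exact h 0

end H65E
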